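import Mathlib

/-!
# Strongly reversible elements of the compact spinor groups

We classify, for every `n ≥ 2`, the strongly reversible elements of `Spin(n)` in terms of their
normal form.
-/

namespace Pool.Agent.Results.MP_aa0c4d_al.SpinStronglyReversible

open CliffordAlgebra

/-- The quadratic form `v ↦ -|v|²` on `ℝⁿ`. -/
noncomputable def Q (n : ℕ) : QuadraticForm ℝ (Fin n → ℝ) :=
  QuadraticMap.weightedSumSquares ℝ (fun _ : Fin n => (-1 : ℝ))

/-- The algebra `C_n`. -/
abbrev Cl (n : ℕ) := CliffordAlgebra (Q n)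

/-- The generators (indexed from `0`). -/
noncomputable def e {n : ℕ} (i : Fin n) : Cl n := ι (Q n) (Pi.single i 1)

lemma Q_apply {n : ℕ} (v : Fin n → ℝ) : Q n v = - ∑ i, v i ^ 2 := by
  simp only [Q, QuadraticMap.weightedSumSquares_apply, smul_eq_mul]
  rw [← Finset.sum_neg_distrib]
  exact Finset.sum_congr rfl fun i _ => by ring

/-! ### The model -/

/-- The module on which the algebra acts. -/
abbrev M (n : ℕ) := (Fin n → Bool) → ℝ

/-- Signs. -/
def sg (b : Bool) : ℝ := if b then -1 else 1

lemma sg_sq (b : Bool) : sg b * sg b = 1 := by cases b <;> simp [sg]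

lemma sg_not (b : Bool) : sg (!b) = - sg b := by cases b <;> simp [sg]

/-- Flip the `i`-th coordinate. -/
def fl {n : ℕ} (i : Fin n) (s : Fin n → Bool) : Fin n → Bool := Function.update s i (!s i)

/-- Partial sign products. -/
def pr {n : ℕ} (P : Fin n → Prop) [DecidablePred P] (s : Fin n → Bool) : ℝ :=
  ∏ j, if P j then sg (s j) else 1

section model

variable {n : ℕ}

lemma fl_fl (i : Fin n) (s : Fin n → Bool) : fl i (fl i s) = s := by
  ext j
  by_cases h : j = i
  · subst h; simp [fl]
  · simp [fl, Function.update_of_ne h]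

lemma fl_comm (i j : Fin n) (s : Fin n → Bool) : fl i (fl j s) = fl j (fl i s) := by
  by_cases h : i = j
  · subst h; rfl
  · ext k
    unfold fl
    rw [Function.update_of_ne h, Function.update_of_ne (Ne.symm h)]
    by_cases h1 : k = i
    · subst h1
      rw [Function.update_self, Function.update_of_ne h, Function.update_self]
    · rw [Function.update_of_ne h1]
      by_cases h2 : k = j
      · subst h2
        rw [Function.update_self, Function.update_self]
      · rw [Function.update_of_ne h2, Function.update_of_ne h2, Function.update_of_ne h1]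

lemma fl_ne {i j : Fin n} (h : j ≠ i) (s : Fin n → Bool) : fl i s j = s j := by
  simp [fl, Function.update_of_ne h]

lemma fl_self (i : Fin n) (s : Fin n → Bool) : fl i s i = !s i := by
  simp [fl]

lemma pr_fl (P : Fin n → Prop) [DecidablePred P] (i : Fin n) (s : Fin n → Bool) :
    pr P (fl i s) = (if P i then -1 else 1) * pr P s := by
  unfold pr
  rw [← Finset.mul_prod_erase _ _ (Finset.mem_univ i),
    ← Finset.mul_prod_erase Finset.univ (fun j => if P j then sg (s j) else 1)
      (Finset.mem_univ i)]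
  have h : ∀ j ∈ Finset.univ.erase i, (if P j then sg (fl i s j) else 1)
      = if P j then sg (s j) else 1 := by
    intro j hj
    rw [fl_ne (Finset.ne_of_mem_erase hj)]
  rw [Finset.prod_congr rfl h, fl_self, sg_not]
  by_cases hP : P i
  · simp only [hP, if_true]; ring
  · simp only [hP, if_false]; ring

lemma pr_sq (P : Fin n → Prop) [DecidablePred P] (s : Fin n → Bool) : pr P s * pr P s = 1 := by
  unfold pr
  rw [← Finset.prod_mul_distrib]
  apply Finset.prod_eq_one
  intro j _
  by_cases h : P j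
  · simp only [h, if_true, sg_sq]
  · simp only [h, if_false, mul_one]

/-- Left signs. -/
abbrev ca (i : Fin n) (s : Fin n → Bool) : ℝ := pr (fun j => j ≤ i) s

/-- Right signs. -/
abbrev cb (i : Fin n) (s : Fin n → Bool) : ℝ := pr (fun j => i ≤ j) s

/-- The parity. -/
abbrev chi (s : Fin n → Bool) : ℝ := pr (fun _ => True) s

lemma ca_cb (i : Fin n) (s : Fin n → Bool) : ca i s * cb i s = chi s * sg (s i) := by
  unfold ca cb chi pr
  have h : sg (s i) = ∏ j, if j = i then sg (s j) else 1 := by
    rw [Finset.prod_ite_eq' Finset.univ i (fun j => sg (s j))]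
    simp
  rw [h, ← Finset.prod_mul_distrib, ← Finset.prod_mul_distrib]
  refine Finset.prod_congr rfl fun j _ => ?_
  rcases lt_trichotomy i j with h | h | h
  · simp [h.le, h.ne', not_le.2 h]
  · subst h; simp
  · simp [h.le, h.ne, not_le.2 h]

/-- Left multiplication operators. -/
def L (i : Fin n) : M n →ₗ[ℝ] M n where
  toFun f s := -(ca i s * f (fl i s))
  map_add' f g := by ext s; simp only [Pi.add_apply]; ring
  map_smul' c f := by ext s; simp only [Pi.smul_apply, smul_eq_mul, RingHom.id_apply]; ring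

/-- Right multiplication operators. -/
def R (i : Fin n) : M n →ₗ[ℝ] M n where
  toFun f s := -(cb i s * f (fl i s))
  map_add' f g := by ext s; simp only [Pi.add_apply]; ring
  map_smul' c f := by ext s; simp only [Pi.smul_apply, smul_eq_mul, RingHom.id_apply]; ring

lemma L_apply (i : Fin n) (f : M n) (s : Fin n → Bool) : L i f s = -(ca i s * f (fl i s)) := rfl

lemma R_apply (i : Fin n) (f : M n) (s : Fin n → Bool) : R i f s = -(cb i s * f (fl i s)) := rfl

lemma LL_apply (i j : Fin n) (f : M n) (s : Fin n → Bool) :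
    L i (L j f) s = (if i ≤ j then -1 else 1) * (ca i s * ca j s * f (fl j (fl i s))) := by
  rw [L_apply, L_apply, ca, ca, pr_fl]
  ring

lemma RR_apply (i j : Fin n) (f : M n) (s : Fin n → Bool) :
    R i (R j f) s = (if j ≤ i then -1 else 1) * (cb i s * cb j s * f (fl j (fl i s))) := by
  rw [R_apply, R_apply, cb, cb, pr_fl]
  ring

lemma LR_comm (i j : Fin n) (f : M n) : L i (R j f) = R j (L i f) := by
  ext s
  rw [L_apply, R_apply, R_apply, L_apply, fl_comm i j s]
  simp only [ca, cb, pr_fl]
  ring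

lemma LR_self (i : Fin n) (f : M n) (s : Fin n → Bool) :
    L i (R i f) s = -(chi s * sg (s i) * f s) := by
  rw [L_apply, R_apply, fl_fl, cb, pr_fl, if_pos le_rfl, ← ca_cb]
  ring

lemma LL_anti (i j : Fin n) (f : M n) : L i (L j f) + L j (L i f)
    = (if i = j then (-2 : ℝ) else 0) • f := by
  ext s
  rw [Pi.add_apply, LL_apply, LL_apply, Pi.smul_apply, smul_eq_mul]
  rcases lt_trichotomy i j with h | h | h
  · rw [if_pos h.le, if_neg (not_le.2 h), if_neg h.ne, fl_comm]
    ring
  · subst h
    rw [if_pos le_rfl, if_pos rfl, fl_fl]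
    have := pr_sq (fun j => j ≤ i) s
    linear_combination (-2 * f s) * this
  · rw [if_pos h.le, if_neg (not_le.2 h), if_neg h.ne', fl_comm]
    ring

/-- Left multiplication by a vector. -/
def Lv : (Fin n → ℝ) →ₗ[ℝ] (M n →ₗ[ℝ] M n) :=
  ∑ i, (LinearMap.proj i : (Fin n → ℝ) →ₗ[ℝ] ℝ).smulRight (L i)

lemma Lv_apply (v : Fin n → ℝ) : Lv v = ∑ i, v i • L i := by
  simp [Lv]

/-- Right multiplication by a vector. -/
def Rv (v : Fin n → ℝ) : M n →ₗ[ℝ] M n := ∑ i, v i • R i

lemma Lv_single (i : Fin n) : Lv (Pi.single i 1) = L i := by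
  rw [Lv_apply, Finset.sum_eq_single i]
  · simp
  · intro j _ hj
    simp [Pi.single_eq_of_ne hj]
  · simp

lemma Rv_single (i : Fin n) : Rv (Pi.single i 1) = R i := by
  rw [Rv, Finset.sum_eq_single i]
  · simp
  · intro j _ hj
    simp [Pi.single_eq_of_ne hj]
  · simp

lemma Lv_sq (v : Fin n → ℝ) : Lv v * Lv v = algebraMap ℝ (Module.End ℝ (M n)) (Q n v) := by
  refine LinearMap.ext fun f => ?_
  have h1 : (Lv v * Lv v) f = ∑ i, ∑ j, (v i * v j) • L i (L j f) := by
    rw [Module.End.mul_apply, Lv_apply]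
    simp only [LinearMap.sum_apply, LinearMap.smul_apply, map_sum, map_smul, Finset.smul_sum,
      smul_smul]
    rw [Finset.sum_comm]
    refine Finset.sum_congr rfl fun i _ => Finset.sum_congr rfl fun j _ => ?_
    rw [mul_comm]
  have h2 : (2 : ℝ) • ∑ i, ∑ j, (v i * v j) • L i (L j f)
      = (2 : ℝ) • (algebraMap ℝ (Module.End ℝ (M n)) (Q n v)) f := by
    have h3 : (2 : ℝ) • ∑ i, ∑ j, (v i * v j) • L i (L j f)
        = ∑ i, ∑ j, (v i * v j) • (L i (L j f) + L j (L i f)) := by
      simp only [smul_add, Finset.sum_add_distrib]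
      rw [two_smul]
      congr 1
      rw [Finset.sum_comm]
      refine Finset.sum_congr rfl fun i _ => Finset.sum_congr rfl fun j _ => ?_
      rw [mul_comm]
    rw [h3, Module.algebraMap_end_apply, Q_apply]
    simp only [LL_anti, smul_smul, mul_ite, mul_zero]
    simp only [ite_smul, zero_smul, Finset.sum_ite_eq, Finset.mem_univ, if_true]
    rw [← Finset.sum_smul]
    congr 1
    rw [mul_neg, Finset.mul_sum, ← Finset.sum_neg_distrib]
    exact Finset.sum_congr rfl fun i _ => by ring
  rw [h1]
  exact smul_right_injective _ (two_ne_zero) h2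

/-- The representation. -/
noncomputable def rho : Cl n →ₐ[ℝ] Module.End ℝ (M n) :=
  CliffordAlgebra.lift (Q n) ⟨Lv, Lv_sq⟩

lemma rho_ι (v : Fin n → ℝ) : rho (ι (Q n) v) = Lv v := by
  simp [rho]

/-- The vacuum. -/
def vac : M n := fun s => if s = fun _ => false then 1 else 0

/-- Coordinates. -/
noncomputable def phi (z : Cl n) : M n := rho z vac

lemma L_vac (i : Fin n) : L i (vac : M n) = R i vac := by
  ext s
  rw [L_apply, R_apply]
  by_cases h : fl i s = fun _ => false
  · have hs : s = fl i (fun _ => false) := by rw [← h, fl_fl]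
    congr 2
    rw [hs, ca, cb, pr_fl, pr_fl, if_pos le_rfl]
    simp [pr, sg]
  · simp [vac, h]

lemma Lv_vac (v : Fin n → ℝ) : Lv v (vac : M n) = Rv v vac := by
  rw [Lv_apply, Rv]
  simp only [LinearMap.sum_apply, LinearMap.smul_apply, L_vac]

lemma rho_R (z : Cl n) (i : Fin n) (f : M n) : rho z (R i f) = R i (rho z f) := by
  induction z using CliffordAlgebra.induction generalizing f with
  | algebraMap r => simp
  | ι v =>
    rw [rho_ι, Lv_apply]
    simp only [LinearMap.sum_apply, LinearMap.smul_apply, LR_comm, map_sum, map_smul]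
  | mul a b ha hb => simp only [map_mul, Module.End.mul_apply, hb, ha]
  | add a b ha hb => simp only [map_add, LinearMap.add_apply, hb, ha]

lemma rho_Rv (z : Cl n) (v : Fin n → ℝ) (f : M n) : rho z (Rv v f) = Rv v (rho z f) := by
  rw [Rv]
  simp only [LinearMap.sum_apply, LinearMap.smul_apply, map_sum, map_smul, rho_R]

lemma phi_mul_ι (z : Cl n) (v : Fin n → ℝ) : phi (z * ι (Q n) v) = Rv v (phi z) := by
  rw [phi, map_mul, Module.End.mul_apply, rho_ι, Lv_vac, rho_Rv]
  rfl

lemma phi_mul (z w : Cl n) : phi (z * w) = rho z (phi w) := by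
  rw [phi, map_mul, Module.End.mul_apply]
  rfl

lemma phi_ι_mul (z : Cl n) (v : Fin n → ℝ) : phi (ι (Q n) v * z) = Lv v (phi z) := by
  rw [phi_mul, rho_ι]

lemma phi_add (z w : Cl n) : phi (z + w) = phi z + phi w := by
  simp [phi]

lemma phi_smul (c : ℝ) (z : Cl n) : phi (c • z) = c • phi z := by
  simp [phi]

/-- Equality of coordinates is preserved by right multiplication. -/
lemma phi_right (k : Cl n) : ∀ (c : ℝ) (h h' : Cl n), phi h = c • phi h' →
    phi (h * k) = c • phi (h' * k) := by
  induction k using CliffordAlgebra.induction with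
  | algebraMap r =>
    intro c h h' hh
    rw [← Algebra.commutes, ← Algebra.commutes, ← Algebra.smul_def, ← Algebra.smul_def, phi_smul,
      phi_smul, hh, smul_comm]
  | ι v =>
    intro c h h' hh
    rw [phi_mul_ι, phi_mul_ι, hh, map_smul]
  | mul a b ha hb =>
    intro c h h' hh
    rw [← mul_assoc, ← mul_assoc]
    exact hb _ _ _ (ha _ _ _ hh)
  | add a b ha hb =>
    intro c h h' hh
    rw [mul_add, mul_add, phi_add, phi_add, ha _ _ _ hh, hb _ _ _ hh, smul_add]

end model

variable {n : ℕ}

/-! ### Vectors -/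

lemma ι_anti (v w : Fin n → ℝ) : ι (Q n) v * ι (Q n) w + ι (Q n) w * ι (Q n) v
    = algebraMap ℝ _ (-2 * (v ⬝ᵥ w)) := by
  rw [ι_mul_ι_add_swap, QuadraticMap.polar, Q_apply, Q_apply, Q_apply]
  congr 1
  simp only [Pi.add_apply, dotProduct]
  rw [Finset.mul_sum, ← Finset.sum_neg_distrib, ← Finset.sum_neg_distrib,
    ← Finset.sum_neg_distrib, ← Finset.sum_sub_distrib, ← Finset.sum_sub_distrib]
  exact Finset.sum_congr rfl fun i _ => by ring

lemma ι_sq (v : Fin n → ℝ) (hv : ∑ i, v i ^ 2 = 1) : ι (Q n) v * ι (Q n) v = -1 := by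
  rw [ι_sq_scalar, Q_apply, hv]; simp

lemma single_sq (i : Fin n) : ∑ k, (Pi.single i (1 : ℝ) : Fin n → ℝ) k ^ 2 = 1 := by
  rw [Finset.sum_eq_single i]
  · simp
  · intro j _ hj; simp [Pi.single_eq_of_ne hj]
  · simp

lemma e_sq (i : Fin n) : (e i : Cl n) * e i = -1 := ι_sq _ (single_sq i)

lemma e_anti {i j : Fin n} (h : i ≠ j) : (e i : Cl n) * e j = -(e j * e i) := by
  have := ι_anti (Pi.single i (1 : ℝ)) (Pi.single j (1 : ℝ))
  rw [show (Pi.single i (1 : ℝ) : Fin n → ℝ) ⬝ᵥ Pi.single j 1 = 0 by simp [h]] at this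
  rw [mul_zero, map_zero] at this
  exact eq_neg_of_add_eq_zero_left this

/-- Products of vectors. -/
noncomputable def vp (l : List (Fin n → ℝ)) : Cl n := (l.map (ι (Q n))).prod

lemma vp_nil : vp ([] : List (Fin n → ℝ)) = 1 := by simp [vp]

lemma vp_cons (v : Fin n → ℝ) (l : List (Fin n → ℝ)) : vp (v :: l) = ι (Q n) v * vp l := by
  simp [vp]

lemma vp_append (l l' : List (Fin n → ℝ)) : vp (l ++ l') = vp l * vp l' := by
  simp [vp]

lemma vp_reverse_cons (v : Fin n → ℝ) (l : List (Fin n → ℝ)) :
    vp (v :: l).reverse = vp l.reverse * ι (Q n) v := by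
  rw [List.reverse_cons, vp_append]; simp [vp]

lemma vp_rev (l : List (Fin n → ℝ)) (hl : ∀ v ∈ l, ∑ i, v i ^ 2 = 1) :
    vp l * vp l.reverse = (-1) ^ l.length := by
  induction l with
  | nil => simp [vp]
  | cons v l ih =>
    rw [vp_reverse_cons, vp_cons]
    have h1 := ih fun w hw => hl w (List.mem_cons_of_mem _ hw)
    calc ι (Q n) v * vp l * (vp l.reverse * ι (Q n) v)
        = ι (Q n) v * (vp l * vp l.reverse) * ι (Q n) v := by simp only [mul_assoc]
      _ = (-1) ^ (v :: l).length := by
        rw [h1, List.length_cons, pow_succ]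
        rw [(Commute.neg_one_right (ι (Q n) v)).pow_right l.length |>.eq, mul_assoc,
          ι_sq v (hl v List.mem_cons_self)]

/-- `Spin(n)`: the group of all products of an even number of unit vectors. -/
noncomputable def Spin (n : ℕ) : Subgroup (Cl n)ˣ where
  carrier := {g | ∃ l : List (Fin n → ℝ), Even l.length ∧ (∀ v ∈ l, ∑ i, v i ^ 2 = 1) ∧
    (g : Cl n) = (l.map (ι (Q n))).prod}
  mul_mem' := by
    rintro g h ⟨l, hl, hu, hg⟩ ⟨l', hl', hu', hh⟩
    refine ⟨l ++ l', by simpa using hl.add hl', ?_, by simp [hg, hh]⟩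
    intro v hv
    rcases List.mem_append.1 hv with h | h
    · exact hu v h
    · exact hu' v h
  one_mem' := ⟨[], by simp, by simp, by simp⟩
  inv_mem' := by
    rintro g ⟨l, hl, hu, hg⟩
    refine ⟨l.reverse, by simpa using hl, by simpa using hu, ?_⟩
    have h1 := vp_rev l hu
    rw [hl.neg_one_pow] at h1
    have h2 : (g : Cl n) * vp l.reverse = 1 := by rw [hg]; exact h1
    exact (Units.inv_eq_of_mul_eq_one_right h2)

/-- Parity of products of vectors. -/
lemma phi_vp_chi (l : List (Fin n → ℝ)) (s : Fin n → Bool) :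
    chi s * phi (vp l) s = (-1) ^ l.length * phi (vp l) s := by
  induction l generalizing s with
  | nil =>
    rw [vp_nil]
    have : phi (1 : Cl n) = vac := by simp [phi]
    rw [this, List.length_nil, pow_zero, one_mul]
    by_cases h : s = fun _ => false
    · subst h; simp [pr, sg]
    · simp [vac, h]
  | cons v l ih =>
    rw [vp_cons, phi_ι_mul, Lv_apply, List.length_cons, pow_succ]
    simp only [LinearMap.sum_apply, LinearMap.smul_apply, Finset.sum_apply, Pi.smul_apply,
      smul_eq_mul, L_apply, Finset.mul_sum]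
    refine Finset.sum_congr rfl fun i _ => ?_
    have h1 := ih (fl i s)
    rw [chi, pr_fl, if_pos trivial] at h1
    linear_combination (ca i s * v i) * h1

/-- The number of `true`s. -/
def cnt (s : Fin n → Bool) : ℕ := (Finset.univ.filter fun i => s i = true).card

/-- Reversal signs. -/
noncomputable def rv (s : Fin n → Bool) : ℝ := (-1) ^ ((cnt s).choose 2)

lemma chi_eq (s : Fin n → Bool) : chi s = (-1) ^ cnt s := by
  unfold chi pr cnt sg
  simp only [if_true]
  rw [Finset.prod_ite, Finset.prod_const, Finset.prod_const_one, mul_one]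

lemma cnt_fl {s : Fin n → Bool} {i : Fin n} (h : s i = false) : cnt (fl i s) = cnt s + 1 := by
  unfold cnt
  rw [← Finset.card_insert_of_notMem (s := Finset.univ.filter fun i => s i = true) (a := i)
    (by simp [h])]
  congr 1
  ext j
  simp only [Finset.mem_filter, Finset.mem_univ, true_and, Finset.mem_insert]
  by_cases hj : j = i
  · subst hj; simp [fl_self, h]
  · simp [fl_ne hj, hj]

lemma rv_mul {s : Fin n → Bool} {i : Fin n} (h : s i = false) :
    rv s * rv (fl i s) = (-1) ^ cnt s := by
  unfold rv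
  rw [cnt_fl h, Nat.choose_succ_succ' (cnt s) 1, Nat.choose_one_right, pow_add]
  have : ((-1 : ℝ) ^ (cnt s).choose 2) * ((-1 : ℝ) ^ (cnt s).choose 2) = 1 := by
    rw [← mul_pow]; simp
  linear_combination ((-1 : ℝ) ^ cnt s) * this

lemma rv_mul' (s : Fin n → Bool) (i : Fin n) : rv s * rv (fl i s) = chi s * sg (s i) := by
  rcases h : s i with _ | _
  · rw [rv_mul h, chi_eq]; simp [sg]
  · have h1 : fl i s i = false := by rw [fl_self, h]; rfl
    have h2 := rv_mul h1
    rw [fl_fl, ← chi_eq, chi, pr_fl, if_pos trivial] at h2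
    rw [mul_comm, h2]
    simp [sg]

lemma rv_ca (s : Fin n → Bool) (i : Fin n) : rv s * ca i s = cb i s * rv (fl i s) := by
  have h1 := rv_mul' s i
  rw [← ca_cb] at h1
  have h2 : rv s * rv s = 1 := by unfold rv; rw [← mul_pow]; simp
  have h3 : cb i s * cb i s = 1 := pr_sq _ _
  linear_combination (-(cb i s) * rv s) * h1 + (cb i s * rv (fl i s)) * h2 -
    (rv s * ca i s) * h3

/-- Reversal of products of vectors. -/
lemma phi_vp_rev (l : List (Fin n → ℝ)) (s : Fin n → Bool) :
    phi (vp l.reverse) s = rv s * phi (vp l) s := by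
  induction l generalizing s with
  | nil =>
    rw [List.reverse_nil, vp_nil]
    have : phi (1 : Cl n) = vac := by simp [phi]
    rw [this]
    by_cases h : s = fun _ => false
    · subst h; simp [rv, cnt]
    · simp [vac, h]
  | cons v l ih =>
    rw [vp_reverse_cons, phi_mul_ι, vp_cons, phi_ι_mul, Lv_apply, Rv]
    simp only [LinearMap.sum_apply, LinearMap.smul_apply, Finset.sum_apply, Pi.smul_apply,
      smul_eq_mul, L_apply, R_apply, Finset.mul_sum]
    refine Finset.sum_congr rfl fun i _ => ?_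
    rw [ih (fl i s)]
    linear_combination (v i * phi (vp l) (fl i s)) * rv_ca s i

/-- Products of unit vectors act on vectors by isometries. -/
lemma exists_G (l : List (Fin n → ℝ)) (hl : ∀ v ∈ l, ∑ i, v i ^ 2 = 1) :
    ∃ G : (Fin n → ℝ) →ₗ[ℝ] (Fin n → ℝ), (∀ v, vp l * ι (Q n) v = ι (Q n) (G v) * vp l) ∧
      ∀ v w, G v ⬝ᵥ G w = v ⬝ᵥ w := by
  induction l with
  | nil => exact ⟨LinearMap.id, fun v => by simp [vp], fun v w => rfl⟩
  | cons u l ih =>
    obtain ⟨G, hG, hG2⟩ := ih fun w hw => hl w (List.mem_cons_of_mem _ hw)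
    have hu := hl u List.mem_cons_self
    have huu : u ⬝ᵥ u = 1 := by
      rw [← hu]; exact Finset.sum_congr rfl fun i _ => by ring
    let H : (Fin n → ℝ) →ₗ[ℝ] (Fin n → ℝ) :=
      { toFun := fun v => (2 * (u ⬝ᵥ v)) • u - v
        map_add' := fun v w => by
          rw [dotProduct_add, mul_add, add_smul]; abel
        map_smul' := fun c v => by
          rw [dotProduct_smul, smul_eq_mul, RingHom.id_apply, smul_sub, smul_smul]
          congr 2; ring }
    have hH : ∀ v, H v = (2 * (u ⬝ᵥ v)) • u - v := fun v => rfl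
    refine ⟨H ∘ₗ G, fun v => ?_, fun v w => ?_⟩
    · rw [vp_cons, mul_assoc, hG, ← mul_assoc, ← mul_assoc]
      congr 1
      rw [LinearMap.comp_apply, hH, map_sub, map_smul, sub_mul, smul_mul_assoc, ι_sq u hu]
      have := ι_anti u (G v)
      rw [eq_sub_of_add_eq this, smul_neg, ← Algebra.algebraMap_eq_smul_one]
      rw [neg_mul, map_neg]
    · rw [LinearMap.comp_apply, LinearMap.comp_apply, hH, hH, ← hG2 v w]
      simp only [sub_dotProduct, dotProduct_sub, smul_dotProduct, dotProduct_smul, smul_eq_mul,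
        huu, dotProduct_comm (G v) u]
      ring

lemma phi_ι (v : Fin n → ℝ) (i : Fin n) : phi (ι (Q n) v) (fl i fun _ => false) = v i := by
  have : phi (ι (Q n) v) = Lv v vac := by rw [phi, rho_ι]
  rw [this, Lv_apply]
  simp only [LinearMap.sum_apply, LinearMap.smul_apply, Finset.sum_apply, Pi.smul_apply,
    smul_eq_mul, L_apply]
  rw [Finset.sum_eq_single i]
  · rw [fl_fl, ca, pr_fl, if_pos le_rfl]
    simp [vac, pr, sg]
  · intro j _ hj
    have : fl j (fl i fun _ => false) ≠ fun _ => false := by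
      intro h
      have := congrFun h i
      rw [fl_ne hj.symm, fl_self] at this
      simp at this
    simp [vac, this]
  · simp

lemma ι_inj {v w : Fin n → ℝ} (h : ι (Q n) v = ι (Q n) w) : v = w := by
  ext i
  rw [← phi_ι v i, ← phi_ι w i, h]

/-- The scalar coordinate is a trace. -/
lemma tau_vp (l : List (Fin n → ℝ)) (z : Cl n) :
    phi (vp l * z) (fun _ => false) = phi (z * vp l) (fun _ => false) := by
  induction l generalizing z with
  | nil => simp [vp]
  | cons v l ih =>
    rw [vp_cons, mul_assoc]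
    have h1 : ∀ w : Cl n, phi (ι (Q n) v * w) (fun _ => false)
        = phi (w * ι (Q n) v) (fun _ => false) := by
      intro w
      rw [phi_ι_mul, phi_mul_ι, Lv_apply, Rv]
      simp only [LinearMap.sum_apply, LinearMap.smul_apply, Finset.sum_apply, Pi.smul_apply,
        smul_eq_mul, L_apply, R_apply]
      refine Finset.sum_congr rfl fun i _ => ?_
      simp [pr, sg]
    rw [h1, mul_assoc, ih, mul_assoc]

/-! ### Planes -/

/-- First index of the `j`-th plane. -/
def pa (j : Fin (n / 2)) : Fin n := ⟨2 * j, by omega⟩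

/-- Second index of the `j`-th plane. -/
def pb (j : Fin (n / 2)) : Fin n := ⟨2 * j + 1, by omega⟩

lemma pa_ne_pb (j k : Fin (n / 2)) : pa j ≠ pb k := by
  intro h
  have := congrArg Fin.val h
  simp only [pa, pb] at this
  omega

lemma pa_inj {j k : Fin (n / 2)} : pa j = pa k ↔ j = k := by
  constructor
  · intro h
    have := congrArg Fin.val h
    simp only [pa] at this
    exact Fin.ext (by omega)
  · rintro rfl; rfl

lemma pb_inj {j k : Fin (n / 2)} : pb j = pb k ↔ j = k := by
  constructor
  · intro h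
    have := congrArg Fin.val h
    simp only [pb] at this
    exact Fin.ext (by omega)
  · rintro rfl; rfl

/-- The bivector of the `j`-th plane. -/
noncomputable def om (j : Fin (n / 2)) : Cl n := e (pa j) * e (pb j)

lemma om_sq (j : Fin (n / 2)) : (om j : Cl n) * om j = -1 := by
  unfold om
  calc (e (pa j) * e (pb j) : Cl n) * (e (pa j) * e (pb j))
      = e (pa j) * (e (pb j) * e (pa j)) * e (pb j) := by simp only [mul_assoc]
    _ = - ((e (pa j) * e (pa j)) * (e (pb j) * e (pb j))) := by
      rw [e_anti (pa_ne_pb j j).symm]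
      simp only [mul_neg, neg_mul, mul_assoc]
    _ = -1 := by rw [e_sq, e_sq]; simp

lemma e_om (i : Fin n) (j : Fin (n / 2)) : (e i : Cl n) * om j
    = (if i = pa j ∨ i = pb j then (-1 : ℝ) else 1) • (om j * e i) := by
  unfold om
  by_cases h1 : i = pa j
  · subst h1
    rw [if_pos (Or.inl rfl), neg_one_smul, mul_assoc (e (pa j)) (e (pb j)),
      e_anti (pa_ne_pb j j).symm]
    simp only [mul_neg, neg_neg]
  · by_cases h2 : i = pb j
    · subst h2
      rw [if_pos (Or.inr rfl), neg_one_smul, ← mul_assoc, e_anti (pa_ne_pb j j).symm]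
      simp only [neg_mul]
    · rw [if_neg (by tauto), one_smul, ← mul_assoc, e_anti h1, neg_mul, mul_assoc, e_anti h2,
        mul_neg, neg_neg, mul_assoc]

/-- Complex numbers in the `j`-th plane. -/
noncomputable def cx (j : Fin (n / 2)) (z : ℂ) : Cl n := algebraMap ℝ (Cl n) z.re + z.im • om j

lemma cx_one (j : Fin (n / 2)) : (cx j 1 : Cl n) = 1 := by simp [cx]

lemma cx_real (j : Fin (n / 2)) (r : ℝ) : (cx j (r : ℂ) : Cl n) = algebraMap ℝ _ r := by
  simp [cx]

lemma cx_mul (j : Fin (n / 2)) (z w : ℂ) : (cx j (z * w) : Cl n) = cx j z * cx j w := by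
  simp only [cx, Complex.mul_re, Complex.mul_im, Algebra.algebraMap_eq_smul_one, add_mul, mul_add,
    smul_mul_assoc, mul_smul_comm, one_mul, mul_one, om_sq, smul_neg]
  module

lemma om_comm (j k : Fin (n / 2)) : Commute (om j : Cl n) (om k) := by
  by_cases h : j = k
  · subst h; exact Commute.refl _
  · unfold Commute SemiconjBy
    conv_lhs => rw [om]
    conv_rhs => rw [om.eq_1 j]
    rw [mul_assoc, e_om, if_neg, one_smul, ← mul_assoc, e_om, if_neg, one_smul, mul_assoc]
    · rintro (h1 | h1)
      · exact h (pa_inj.1 h1)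
      · exact pa_ne_pb _ _ h1
    · rintro (h1 | h1)
      · exact pa_ne_pb _ _ h1.symm
      · exact h (pb_inj.1 h1)

lemma cx_comm (j k : Fin (n / 2)) (z w : ℂ) : Commute (cx j z : Cl n) (cx k w) := by
  unfold cx
  refine Commute.add_left (Algebra.commutes _ _) (Commute.add_right ?_ ?_)
  · exact (Algebra.commutes _ _).symm
  · exact ((om_comm j k).smul_left _).smul_right _

lemma cx_e (i : Fin n) (j : Fin (n / 2)) (z : ℂ) : (cx j z : Cl n) * e i
    = e i * cx j (if i = pa j ∨ i = pb j then (starRingEnd ℂ) z else z) := by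
  unfold cx
  rw [add_mul, mul_add, smul_mul_assoc, mul_smul_comm, e_om, Algebra.commutes]
  by_cases h : i = pa j ∨ i = pb j
  · simp [h]
  · simp [h]

/-- Product of the plane factors. -/
noncomputable def NF (z : Fin (n / 2) → ℂ) : Cl n :=
  ((List.finRange (n / 2)).map fun j => cx j (z j)).prod

lemma prod_mul_list {ι A : Type*} [Monoid A] (l : List ι) (f g : ι → A)
    (h : ∀ j k, Commute (g j) (f k)) :
    (l.map fun j => f j * g j).prod = (l.map f).prod * (l.map g).prod := by
  induction l with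
  | nil => simp
  | cons j l ih =>
    simp only [List.map_cons, List.prod_cons, ih]
    have : Commute (g j) (l.map f).prod := by
      apply Commute.list_prod_right
      intro x hx
      obtain ⟨k, -, rfl⟩ := List.mem_map.1 hx
      exact h j k
    rw [mul_assoc, ← mul_assoc (g j), this.eq]
    simp only [mul_assoc]

lemma NF_mul (z w : Fin (n / 2) → ℂ) : (NF (fun j => z j * w j) : Cl n) = NF z * NF w := by
  unfold NF
  simp only [cx_mul]
  exact prod_mul_list _ _ _ fun j k => cx_comm _ _ _ _

lemma NF_real (κ : Fin (n / 2) → ℝ) : (NF (fun j => ((κ j : ℝ) : ℂ)) : Cl n)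
    = algebraMap ℝ _ (∏ j, κ j) := by
  unfold NF
  simp only [cx_real]
  rw [Fin.prod_univ_def, map_list_prod, List.map_map]
  rfl

lemma NF_one : (NF (fun _ => 1) : Cl n) = 1 := by
  have := NF_real (n := n) (fun _ => 1)
  simpa using this

lemma NF_e (z : Fin (n / 2) → ℂ) (i : Fin n) : (NF z : Cl n) * e i
    = e i * NF (fun j => if i = pa j ∨ i = pb j then (starRingEnd ℂ) (z j) else z j) := by
  unfold NF
  generalize List.finRange (n / 2) = l
  induction l with
  | nil => simp
  | cons j l ih =>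
    simp only [List.map_cons, List.prod_cons]
    rw [mul_assoc, ih, ← mul_assoc, cx_e, mul_assoc]

lemma NF_single (j : Fin (n / 2)) (w : ℂ) :
    (NF (fun k => if k = j then w else 1) : Cl n) = cx j w := by
  unfold NF
  have key : ∀ l : List (Fin (n / 2)), l.Nodup →
      (l.map fun k => (cx k (if k = j then w else 1) : Cl n)).prod
        = if j ∈ l then cx j w else 1 := by
    intro l hl
    induction l with
    | nil => simp
    | cons k l ih =>
      rw [List.nodup_cons] at hl
      rw [List.map_cons, List.prod_cons, ih hl.2]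
      by_cases hk : k = j
      · subst hk
        simp [hl.1]
      · rw [if_neg hk, cx_one, one_mul]
        have : j ≠ k := fun h => hk h.symm
        simp [this]
  rw [key _ (List.nodup_finRange _), if_pos (List.mem_finRange j)]

/-- Commutation of a product of generators with a generator. -/
lemma E_e (l : List (Fin n)) (hl : l.Nodup) (i : Fin n) :
    ((l.map e).prod : Cl n) * e i = ((-1 : ℝ) ^ l.length * (if i ∈ l then -1 else 1)) •
      (e i * (l.map e).prod) := by
  induction l with
  | nil => simp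
  | cons k l ih =>
    rw [List.nodup_cons] at hl
    rw [List.map_cons, List.prod_cons, mul_assoc, ih hl.2, mul_smul_comm, ← mul_assoc]
    by_cases hk : i = k
    · subst hk
      rw [if_neg hl.1, if_pos List.mem_cons_self, List.length_cons, pow_succ, mul_assoc]
      congr 1
      ring
    · rw [e_anti (Ne.symm hk)]
      have h1 : (i ∈ k :: l) ↔ i ∈ l := by simp [hk]
      simp only [h1, List.length_cons, pow_succ, neg_mul, smul_neg, mul_assoc]
      rw [← neg_smul]
      congr 1
      ring

lemma E_sq (l : List (Fin n)) (hl : l.Nodup) :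
    ((l.map e).prod : Cl n) * (l.map e).prod = algebraMap ℝ _ ((-1 : ℝ) ^ ((l.length + 1).choose 2)) := by
  induction l with
  | nil => simp
  | cons k l ih =>
    rw [List.nodup_cons] at hl
    rw [List.map_cons, List.prod_cons]
    calc (e k : Cl n) * (l.map e).prod * (e k * (l.map e).prod)
        = e k * ((l.map e).prod * e k) * (l.map e).prod := by simp only [mul_assoc]
      _ = (-1 : ℝ) ^ l.length • ((e k * e k) * ((l.map e).prod * (l.map e).prod)) := by
        rw [E_e l hl.2 k, if_neg hl.1, mul_one, mul_smul_comm, smul_mul_assoc]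
        simp only [mul_assoc]
      _ = _ := by
        rw [e_sq, ih hl.2, List.length_cons, neg_one_mul, smul_neg, Algebra.smul_def, ← map_mul,
          ← map_neg, Nat.choose_succ_succ' (l.length + 1) 1, Nat.choose_one_right]
        congr 1
        rw [pow_add, pow_succ]
        ring

/-! ### Sufficiency -/

lemma E_om (l : List (Fin n)) (hl : l.Nodup) (he : Even l.length) (j : Fin (n / 2)) :
    ((l.map e).prod : Cl n) * om j = (if (pa j ∈ l ↔ pb j ∈ l) then (1 : ℝ) else -1) •
      (om j * (l.map e).prod) := by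
  unfold om
  rw [← mul_assoc, E_e l hl, he.neg_one_pow, one_mul, smul_mul_assoc, mul_assoc, E_e l hl,
    he.neg_one_pow, one_mul, mul_smul_comm, smul_smul, mul_assoc]
  congr 1
  by_cases h1 : pa j ∈ l <;> by_cases h2 : pb j ∈ l <;> simp [h1, h2]

lemma E_cx (l : List (Fin n)) (hl : l.Nodup) (he : Even l.length) (j : Fin (n / 2)) (w : ℂ) :
    ((l.map e).prod : Cl n) * cx j w
      = cx j (if (pa j ∈ l ↔ pb j ∈ l) then w else (starRingEnd ℂ) w) * (l.map e).prod := by
  unfold cx
  rw [mul_add, add_mul, mul_smul_comm, E_om l hl he, smul_mul_assoc, Algebra.commutes]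
  by_cases h : (pa j ∈ l ↔ pb j ∈ l)
  · simp [h]
  · simp [h]

lemma E_NF (l : List (Fin n)) (hl : l.Nodup) (he : Even l.length) (z : Fin (n / 2) → ℂ) :
    ((l.map e).prod : Cl n) * NF z
      = NF (fun j => if (pa j ∈ l ↔ pb j ∈ l) then z j else (starRingEnd ℂ) (z j))
        * (l.map e).prod := by
  unfold NF
  generalize List.finRange (n / 2) = L
  induction L with
  | nil => simp
  | cons j L ih =>
    simp only [List.map_cons, List.prod_cons]
    rw [← mul_assoc, E_cx l hl he, mul_assoc, ih, mul_assoc]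

lemma suff_core (z : Fin (n / 2) → ℂ) (S : Finset (Fin n)) (hS : 4 ∣ S.card)
    (κ : Fin (n / 2) → ℝ) (hκ : ∏ j, κ j = 1)
    (h : ∀ j, (if (pa j ∈ S ↔ pb j ∈ S) then z j else (starRingEnd ℂ) (z j))
      = κ j * (starRingEnd ℂ) (z j)) :
    ∃ l : List (Fin n → ℝ), Even l.length ∧ (∀ v ∈ l, ∑ i, v i ^ 2 = 1) ∧
      (vp l : Cl n) * vp l = 1 ∧
      (vp l : Cl n) * NF z = NF (fun j => (starRingEnd ℂ) (z j)) * vp l := by
  obtain ⟨t, ht⟩ := hS
  set L := S.toList with hL
  have hnd : L.Nodup := S.nodup_toList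
  have hlen : L.length = 4 * t := by rw [hL, Finset.length_toList, ht]
  have heven : Even L.length := by rw [hlen]; exact ⟨2 * t, by ring⟩
  have hvp : (vp (L.map fun i => Pi.single i (1 : ℝ)) : Cl n) = (L.map e).prod := by
    unfold vp
    rw [List.map_map]
    rfl
  have hmem : ∀ i, i ∈ L ↔ i ∈ S := fun i => by rw [hL, Finset.mem_toList]
  refine ⟨L.map fun i => Pi.single i (1 : ℝ), by simpa using heven, ?_, ?_, ?_⟩
  · intro v hv
    obtain ⟨i, -, rfl⟩ := List.mem_map.1 hv
    exact single_sq i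
  · rw [hvp, E_sq L hnd, hlen, Nat.choose_two_right]
    have : (4 * t + 1) * (4 * t + 1 - 1) / 2 = 2 * ((4 * t + 1) * t) := by
      rw [Nat.add_sub_cancel]
      have : (4 * t + 1) * (4 * t) = 2 * (2 * ((4 * t + 1) * t)) := by ring
      rw [this, Nat.mul_div_cancel_left _ (by norm_num)]
    rw [this, pow_mul]
    simp
  · rw [hvp, E_NF L hnd heven]
    congr 1
    have h1 : (fun j => if (pa j ∈ L ↔ pb j ∈ L) then z j else (starRingEnd ℂ) (z j))
        = fun j => ((κ j : ℝ) : ℂ) * (starRingEnd ℂ) (z j) := by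
      funext j
      rw [← h j]
      simp only [hmem]
    rw [h1, NF_mul (fun j => ((κ j : ℝ) : ℂ)) (fun j => (starRingEnd ℂ) (z j)), NF_real, hκ,
      map_one, one_mul]

lemma suff_main (z : Fin (n / 2) → ℂ) (T W : Finset (Fin (n / 2))) (F : Finset (Fin n))
    (hF : ∀ i ∈ F, ∀ j, i ≠ pa j ∧ i ≠ pb j) (hTW : Disjoint T W) (κ : Fin (n / 2) → ℝ)
    (hκ : ∏ j, κ j = 1) (hT : ∀ j ∈ T, z j = κ j * (starRingEnd ℂ) (z j))
    (hW : ∀ j ∈ W, z j = κ j * (starRingEnd ℂ) (z j)) (h1 : ∀ j, j ∉ T → j ∉ W → κ j = 1)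
    (hcard : 4 ∣ (n / 2 - T.card) + W.card + F.card) :
    ∃ l : List (Fin n → ℝ), Even l.length ∧ (∀ v ∈ l, ∑ i, v i ^ 2 = 1) ∧
      (vp l : Cl n) * vp l = 1 ∧
      (vp l : Cl n) * NF z = NF (fun j => (starRingEnd ℂ) (z j)) * vp l := by
  classical
  set S : Finset (Fin n) := (Tᶜ).image pa ∪ W.image pb ∪ F with hS
  have ha : ∀ j, pa j ∈ S ↔ j ∉ T := by
    intro j
    simp only [hS, Finset.mem_union, Finset.mem_image, Finset.mem_compl]
    constructor
    · rintro ((⟨k, hk, hkj⟩ | ⟨k, hk, hkj⟩) | hjF)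
      · rw [pa_inj] at hkj; rwa [hkj] at hk
      · exact absurd hkj.symm (pa_ne_pb _ _)
      · exact absurd rfl (hF _ hjF j).1
    · intro hj
      exact Or.inl (Or.inl ⟨j, hj, rfl⟩)
  have hb : ∀ j, pb j ∈ S ↔ j ∈ W := by
    intro j
    simp only [hS, Finset.mem_union, Finset.mem_image, Finset.mem_compl]
    constructor
    · rintro ((⟨k, hk, hkj⟩ | ⟨k, hk, hkj⟩) | hjF)
      · exact absurd hkj (pa_ne_pb _ _)
      · rw [pb_inj] at hkj; rwa [hkj] at hk
      · exact absurd rfl (hF _ hjF j).2
    · intro hj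
      exact Or.inl (Or.inr ⟨j, hj, rfl⟩)
  have hSc : S.card = (n / 2 - T.card) + W.card + F.card := by
    rw [hS, Finset.card_union_of_disjoint, Finset.card_union_of_disjoint,
      Finset.card_image_of_injective _ (fun j k h => pa_inj.1 h),
      Finset.card_image_of_injective _ (fun j k h => pb_inj.1 h), Finset.card_compl,
      Fintype.card_fin]
    · rw [Finset.disjoint_left]
      intro i hi hi'
      obtain ⟨j, -, rfl⟩ := Finset.mem_image.1 hi
      obtain ⟨k, -, hk⟩ := Finset.mem_image.1 hi'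
      exact pa_ne_pb j k hk.symm
    · rw [Finset.disjoint_left]
      intro i hi hi'
      rcases Finset.mem_union.1 hi with h | h
      · obtain ⟨j, -, rfl⟩ := Finset.mem_image.1 h
        exact (hF _ hi' j).1 rfl
      · obtain ⟨j, -, rfl⟩ := Finset.mem_image.1 h
        exact (hF _ hi' j).2 rfl
  refine suff_core z S (hSc ▸ hcard) κ hκ fun j => ?_
  rw [Finset.disjoint_left] at hTW
  by_cases hjT : j ∈ T
  · have hjW := hTW hjT
    rw [if_pos (by rw [ha, hb]; tauto)]
    exact hT j hjT
  · by_cases hjW : j ∈ W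
    · rw [if_pos (by rw [ha, hb]; tauto)]
      exact hW j hjW
    · rw [if_neg (by rw [ha, hb]; tauto), h1 j hjT hjW]
      simp

/-- The number of planes with `μ = 0`. -/
noncomputable def pN (θ : Fin (n / 2) → ℝ) : ℕ := {j : Fin (n / 2) | Real.sin (θ j) = 0}.ncard

/-- The number of planes with `λ = 0`. -/
noncomputable def qN (θ : Fin (n / 2) → ℝ) : ℕ := {j : Fin (n / 2) | Real.cos (θ j) = 0}.ncard

/-- The criterion. -/
def Crit (n p q : ℕ) : Prop :=
  n % 8 = 0 ∨ n % 8 = 1 ∨ n % 8 = 7 ∨ ((n % 8 = 3 ∨ n % 8 = 5) ∧ (1 ≤ p ∨ 2 ≤ q)) ∨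
    (n % 8 = 4 ∧ (2 ≤ p ∨ 2 ≤ q)) ∨ (n % 4 = 2 ∧ 1 ≤ p)

/-- The complex numbers attached to the angles. -/
noncomputable def zz (θ : Fin (n / 2) → ℝ) (j : Fin (n / 2)) : ℂ :=
  ⟨Real.cos (θ j), Real.sin (θ j)⟩

lemma pN_eq (θ : Fin (n / 2) → ℝ) :
    pN θ = (Finset.univ.filter fun j => Real.sin (θ j) = 0).card := by
  classical
  unfold pN
  rw [Set.ncard_eq_toFinset_card']
  congr 1
  ext j
  simp

lemma qN_eq (θ : Fin (n / 2) → ℝ) :
    qN θ = (Finset.univ.filter fun j => Real.cos (θ j) = 0).card := by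
  classical
  unfold qN
  rw [Set.ncard_eq_toFinset_card']
  congr 1
  ext j
  simp

lemma zz_p {θ : Fin (n / 2) → ℝ} {j : Fin (n / 2)} (h : Real.sin (θ j) = 0) :
    zz θ j = ((1 : ℝ) : ℂ) * (starRingEnd ℂ) (zz θ j) := by
  apply Complex.ext <;> simp [zz, h]

lemma zz_q {θ : Fin (n / 2) → ℝ} {j : Fin (n / 2)} (h : Real.cos (θ j) = 0) :
    zz θ j = ((-1 : ℝ) : ℂ) * (starRingEnd ℂ) (zz θ j) := by
  apply Complex.ext <;> simp [zz, h]

lemma suff (θ : Fin (n / 2) → ℝ) (h : Crit n (pN θ) (qN θ)) :
    ∃ l : List (Fin n → ℝ), Even l.length ∧ (∀ v ∈ l, ∑ i, v i ^ 2 = 1) ∧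
      (vp l : Cl n) * vp l = 1 ∧
      (vp l : Cl n) * NF (zz θ) = NF (fun j => (starRingEnd ℂ) (zz θ j)) * vp l := by
  classical
  rw [pN_eq, qN_eq] at h
  set P := Finset.univ.filter fun j => Real.sin (θ j) = 0 with hP
  set Qf := Finset.univ.filter fun j => Real.cos (θ j) = 0 with hQf
  -- the tool for planes with `μ = 0`
  have toolp : ∀ T W : Finset (Fin (n / 2)), T ⊆ P → W ⊆ P → Disjoint T W →
      ∀ F : Finset (Fin n), (∀ i ∈ F, ∀ j, i ≠ pa j ∧ i ≠ pb j) →
      4 ∣ (n / 2 - T.card) + W.card + F.card →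
      ∃ l : List (Fin n → ℝ), Even l.length ∧ (∀ v ∈ l, ∑ i, v i ^ 2 = 1) ∧
      (vp l : Cl n) * vp l = 1 ∧
      (vp l : Cl n) * NF (zz θ) = NF (fun j => (starRingEnd ℂ) (zz θ j)) * vp l := by
    intro T W hT hW hTW F hF hc
    refine suff_main (zz θ) T W F hF hTW (fun _ => 1) (by simp) ?_ ?_ (fun _ _ _ => rfl) hc
    · intro j hj
      exact zz_p (Finset.mem_filter.1 (hT hj)).2
    · intro j hj
      exact zz_p (Finset.mem_filter.1 (hW hj)).2
  have toolq : ∀ T : Finset (Fin (n / 2)), T ⊆ Qf → T.card = 2 →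
      ∀ F : Finset (Fin n), (∀ i ∈ F, ∀ j, i ≠ pa j ∧ i ≠ pb j) →
      4 ∣ (n / 2 - 2) + F.card →
      ∃ l : List (Fin n → ℝ), Even l.length ∧ (∀ v ∈ l, ∑ i, v i ^ 2 = 1) ∧
      (vp l : Cl n) * vp l = 1 ∧
      (vp l : Cl n) * NF (zz θ) = NF (fun j => (starRingEnd ℂ) (zz θ j)) * vp l := by
    intro T hT hT2 F hF hc
    refine suff_main (zz θ) T ∅ F hF (Finset.disjoint_empty_right _)
      (fun j => if j ∈ T then -1 else 1) ?_ ?_ ?_ ?_ ?_
    · rw [Finset.prod_ite, Finset.prod_const, Finset.prod_const_one, mul_one]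
      have : (Finset.univ.filter fun j => j ∈ T) = T := by ext; simp
      rw [this, hT2]; norm_num
    · intro j hj
      rw [if_pos hj]
      exact zz_q (Finset.mem_filter.1 (hT hj)).2
    · intro j hj; simp at hj
    · intro j hj _; rw [if_neg hj]
    · rw [hT2]; simpa using hc
  -- the last index
  have hFe : ∀ i ∈ (∅ : Finset (Fin n)), ∀ j, i ≠ pa j ∧ i ≠ pb j := by
    intro i hi; simp at hi
  have hlast : n % 2 = 1 → ∃ F : Finset (Fin n), F.card = 1 ∧
      ∀ i ∈ F, ∀ j, i ≠ pa j ∧ i ≠ pb j := by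
    intro hodd
    refine ⟨{⟨n - 1, by omega⟩}, Finset.card_singleton _, ?_⟩
    intro i hi j
    rw [Finset.mem_singleton] at hi
    subst hi
    have hj := j.2
    constructor <;> intro h <;> · have := congrArg Fin.val h; simp only [pa, pb] at this; omega
  have hPm : P.card ≤ n / 2 := by
    simpa using Finset.card_le_univ P
  have hQm : Qf.card ≤ n / 2 := by
    simpa using Finset.card_le_univ Qf
  rcases h with h | h | h | ⟨h, hpq⟩ | ⟨h, hpq⟩ | ⟨h, hp⟩
  · exact toolp ∅ ∅ (by simp) (by simp) (by simp) ∅ hFe (by simp; omega)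
  · exact toolp ∅ ∅ (by simp) (by simp) (by simp) ∅ hFe (by simp; omega)
  · obtain ⟨F, hF1, hF⟩ := hlast (by omega)
    exact toolp ∅ ∅ (by simp) (by simp) (by simp) F hF (by simp [hF1]; omega)
  · obtain ⟨F, hF1, hF⟩ := hlast (by omega)
    rcases hpq with hp | hq
    · obtain ⟨T, hT, hT1⟩ := Finset.exists_subset_card_eq hp
      rcases h with h | h
      · exact toolp T ∅ hT (by simp) (by simp) ∅ hFe (by simp [hT1]; omega)
      · exact toolp ∅ T (by simp) hT (by simp) F hF (by simp [hT1, hF1]; omega)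
    · obtain ⟨T, hT, hT1⟩ := Finset.exists_subset_card_eq hq
      rcases h with h | h
      · exact toolq T hT hT1 F hF (by simp [hF1]; omega)
      · exact toolq T hT hT1 ∅ hFe (by simp; omega)
  · rcases hpq with hp | hq
    · obtain ⟨T, hT, hT1⟩ := Finset.exists_subset_card_eq hp
      exact toolp T ∅ hT (by simp) (by simp) ∅ hFe (by simp [hT1]; omega)
    · obtain ⟨T, hT, hT1⟩ := Finset.exists_subset_card_eq hq
      exact toolq T hT hT1 ∅ hFe (by simp; omega)
  · obtain ⟨T, hT, hT1⟩ := Finset.exists_subset_card_eq hp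
    have : n % 8 = 2 ∨ n % 8 = 6 := by omega
    rcases this with h | h
    · exact toolp T ∅ hT (by simp) (by simp) ∅ hFe (by simp [hT1]; omega)
    · exact toolp ∅ T (by simp) hT (by simp) ∅ hFe (by simp [hT1]; omega)

/-! ### Necessity -/

/-- The normal form as a product of unit vectors. -/
lemma NF_list (z : Fin (n / 2) → ℂ) (hz : ∀ j, (z j).re ^ 2 + (z j).im ^ 2 = 1) :
    ∃ l : List (Fin n → ℝ), Even l.length ∧ (∀ v ∈ l, ∑ i, v i ^ 2 = 1) ∧
      (vp l : Cl n) = NF z := by
  unfold NF
  generalize List.finRange (n / 2) = L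
  induction L with
  | nil => exact ⟨[], by simp, by simp, by simp [vp]⟩
  | cons j L ih =>
    obtain ⟨l, h1, h2, h3⟩ := ih
    refine ⟨[Pi.single (pa j) 1, -(z j).re • Pi.single (pa j) 1 + (z j).im • Pi.single (pb j) 1]
      ++ l, ?_, ?_, ?_⟩
    · rw [List.length_append]
      exact Even.add (by simp) h1
    · intro v hv
      rcases List.mem_append.1 hv with h | h
      · rcases List.mem_cons.1 h with rfl | h
        · exact single_sq _
        · have := List.mem_singleton.1 h
          subst this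
          have hsum : ∀ v w : Fin n → ℝ, v ⬝ᵥ w = ∑ i, v i * w i := fun v w => rfl
          have hpp : ∑ i, ((-(z j).re • Pi.single (pa j) 1 + (z j).im • Pi.single (pb j) 1 :
              Fin n → ℝ) i) ^ 2 = (-(z j).re • Pi.single (pa j) 1 + (z j).im • Pi.single (pb j) 1 :
              Fin n → ℝ) ⬝ᵥ (-(z j).re • Pi.single (pa j) 1 + (z j).im • Pi.single (pb j) 1) := by
            rw [hsum]
            exact Finset.sum_congr rfl fun i _ => by ring
          rw [hpp]
          have hab := pa_ne_pb j j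
          simp only [add_dotProduct, dotProduct_add, smul_dotProduct, dotProduct_smul,
            single_dotProduct, smul_eq_mul, one_mul]
          rw [Pi.single_eq_same, Pi.single_eq_same, Pi.single_eq_of_ne hab,
            Pi.single_eq_of_ne hab.symm]
          linarith [hz j]
      · exact h2 v h
    · rw [vp_append, h3, List.map_cons, List.prod_cons]
      congr 1
      simp only [vp, List.map_cons, List.map_nil, List.prod_cons, List.prod_nil, mul_one, map_add,
        map_smul]
      change (e (pa j) : Cl n) * (-(z j).re • e (pa j) + (z j).im • e (pb j)) = _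
      rw [mul_add, mul_smul_comm, mul_smul_comm, e_sq, cx, om, Algebra.algebraMap_eq_smul_one]
      simp

lemma NF_inv {z : Fin (n / 2) → ℂ} (hz : ∀ j, (z j).re ^ 2 + (z j).im ^ 2 = 1) :
    (NF z : Cl n) * NF (fun j => (starRingEnd ℂ) (z j)) = 1 := by
  rw [← NF_mul]
  have : (fun j => z j * (starRingEnd ℂ) (z j)) = fun _ => (1 : ℂ) := by
    funext j
    rw [Complex.mul_conj, Complex.normSq_apply]
    have := hz j
    rw [show (z j).re * (z j).re + (z j).im * (z j).im = 1 by nlinarith]
    simp
  rw [this, NF_one]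

lemma NF_inv' {z : Fin (n / 2) → ℂ} (hz : ∀ j, (z j).re ^ 2 + (z j).im ^ 2 = 1) :
    (NF (fun j => (starRingEnd ℂ) (z j)) : Cl n) * NF z = 1 := by
  rw [← NF_mul]
  have : (fun j => (starRingEnd ℂ) (z j) * z j) = fun _ => (1 : ℂ) := by
    funext j
    rw [mul_comm, Complex.mul_conj, Complex.normSq_apply]
    have := hz j
    rw [show (z j).re * (z j).re + (z j).im * (z j).im = 1 by nlinarith]
    simp
  rw [this, NF_one]

/-- Conjugation of the basis vectors by the normal form. -/
lemma NF_conj {z : Fin (n / 2) → ℂ} (hz : ∀ j, (z j).re ^ 2 + (z j).im ^ 2 = 1) (i : Fin n)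
    (j : Fin (n / 2)) (hij : i = pa j ∨ i = pb j) :
    (NF z : Cl n) * e i = e i * cx j ((starRingEnd ℂ) (z j) ^ 2) * NF z := by
  rw [NF_e, mul_assoc, ← NF_single, ← NF_mul]
  congr 2
  funext k
  by_cases hk : k = j
  · subst hk
    rw [if_pos hij, if_pos rfl]
    have : (starRingEnd ℂ) (z k) * z k = 1 := by
      rw [mul_comm, Complex.mul_conj, Complex.normSq_apply]
      have := hz k
      rw [show (z k).re * (z k).re + (z k).im * (z k).im = 1 by nlinarith]
      simp
    rw [sq, mul_assoc, this, mul_one]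
  · rw [if_neg, if_neg hk, one_mul]
    rintro (h | h)
    · rcases hij with h' | h'
      · exact hk (pa_inj.1 (h.symm.trans h'))
      · exact pa_ne_pb _ _ (h.symm.trans h')
    · rcases hij with h' | h'
      · exact pa_ne_pb _ _ (h'.symm.trans h)
      · exact hk (pb_inj.1 (h.symm.trans h'))

lemma ea_cx (j : Fin (n / 2)) (w : ℂ) : (e (pa j) : Cl n) * cx j w
    = ι (Q n) (w.re • Pi.single (pa j) 1 - w.im • Pi.single (pb j) 1) := by
  rw [map_sub, map_smul, map_smul]
  change _ = w.re • e (pa j) - w.im • e (pb j)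
  rw [cx, mul_add, mul_smul_comm, om, ← mul_assoc, e_sq, neg_one_mul, smul_neg, ← sub_eq_add_neg,
    Algebra.algebraMap_eq_smul_one, mul_smul_comm, mul_one]

lemma eb_cx (j : Fin (n / 2)) (w : ℂ) : (e (pb j) : Cl n) * cx j w
    = ι (Q n) (w.re • Pi.single (pb j) 1 + w.im • Pi.single (pa j) 1) := by
  rw [map_add, map_smul, map_smul]
  change _ = w.re • e (pb j) + w.im • e (pa j)
  rw [cx, mul_add, mul_smul_comm, om, ← mul_assoc, e_anti (pa_ne_pb j j).symm, neg_mul, mul_assoc,
    e_sq, mul_neg, neg_neg, mul_one, Algebra.algebraMap_eq_smul_one, mul_smul_comm, mul_one]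

lemma cancel_ι {x x' : Cl n} (hx : x * x' = 1) {v w : Fin n → ℝ}
    (h : ι (Q n) v * x = ι (Q n) w * x) : v = w := by
  apply ι_inj
  have := congrArg (· * x') h
  simpa [mul_assoc, hx] using this

/-- The vector representation of the normal form. -/
lemma X_apply {z : Fin (n / 2) → ℂ} (hz : ∀ j, (z j).re ^ 2 + (z j).im ^ 2 = 1)
    {X : (Fin n → ℝ) →ₗ[ℝ] (Fin n → ℝ)}
    (hX : ∀ v, (NF z : Cl n) * ι (Q n) v = ι (Q n) (X v) * NF z) (j : Fin (n / 2)) :
    X (Pi.single (pa j) 1) = ((z j).re ^ 2 - (z j).im ^ 2) • Pi.single (pa j) 1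
      + (2 * (z j).re * (z j).im) • Pi.single (pb j) 1 ∧
    X (Pi.single (pb j) 1) = ((z j).re ^ 2 - (z j).im ^ 2) • Pi.single (pb j) 1
      - (2 * (z j).re * (z j).im) • Pi.single (pa j) 1 := by
  have hre : ((starRingEnd ℂ) (z j) ^ 2).re = (z j).re ^ 2 - (z j).im ^ 2 := by
    rw [sq, Complex.mul_re, Complex.conj_re, Complex.conj_im]; ring
  have him : ((starRingEnd ℂ) (z j) ^ 2).im = -(2 * (z j).re * (z j).im) := by
    rw [sq, Complex.mul_im, Complex.conj_re, Complex.conj_im]; ring
  constructor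
  · apply cancel_ι (NF_inv hz)
    rw [← hX]
    have := NF_conj hz (pa j) j (Or.inl rfl)
    rw [ea_cx, hre, him] at this
    change (NF z : Cl n) * e (pa j) = _
    rw [this, neg_smul, sub_neg_eq_add]
  · apply cancel_ι (NF_inv hz)
    rw [← hX]
    have := NF_conj hz (pb j) j (Or.inr rfl)
    rw [eb_cx, hre, him] at this
    change (NF z : Cl n) * e (pb j) = _
    rw [this, neg_smul, ← sub_eq_add_neg]

lemma X_last {z : Fin (n / 2) → ℂ} (hz : ∀ j, (z j).re ^ 2 + (z j).im ^ 2 = 1)
    {X : (Fin n → ℝ) →ₗ[ℝ] (Fin n → ℝ)}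
    (hX : ∀ v, (NF z : Cl n) * ι (Q n) v = ι (Q n) (X v) * NF z) (i : Fin n)
    (hi : ∀ j, i ≠ pa j ∧ i ≠ pb j) : X (Pi.single i 1) = Pi.single i 1 := by
  apply cancel_ι (NF_inv hz)
  rw [← hX]
  change (NF z : Cl n) * e i = e i * NF z
  rw [NF_e]
  congr 2
  funext k
  rw [if_neg]
  rintro (h | h)
  · exact (hi k).1 h
  · exact (hi k).2 h

lemma phi_cx_mul (j : Fin (n / 2)) (w : ℂ) (h : Cl n) (s : Fin n → Bool) :
    phi (cx j w * h) s = w.re * phi h s
      - w.im * (ca (pa j) s * ca (pb j) s * phi h (fl (pb j) (fl (pa j) s))) := by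
  rw [cx, add_mul, phi_add, ← Algebra.smul_def, phi_smul, smul_mul_assoc, phi_smul, om, mul_assoc]
  have h1 : phi (e (pa j) * (e (pb j) * h)) = L (pa j) (L (pb j) (phi h)) := by
    unfold e
    rw [phi_ι_mul, phi_ι_mul, Lv_single, Lv_single]
  rw [h1]
  simp only [Pi.add_apply, Pi.smul_apply, smul_eq_mul]
  rw [LL_apply, if_pos]
  · ring
  · rw [Fin.le_def]; simp [pa, pb]

lemma phi_mul_om (j : Fin (n / 2)) (h : Cl n) (s : Fin n → Bool) :
    phi (h * om j) s = sg (s (pa j)) * sg (s (pb j)) * phi (om j * h) s := by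
  have hle : pa j ≤ pb j := by rw [Fin.le_def]; simp [pa, pb]
  have h1 : phi (om j * h) = L (pa j) (L (pb j) (phi h)) := by
    unfold om e
    rw [mul_assoc, phi_ι_mul, phi_ι_mul, Lv_single, Lv_single]
  have h2 : phi (h * om j) = R (pb j) (R (pa j) (phi h)) := by
    unfold om e
    rw [← mul_assoc, phi_mul_ι, phi_mul_ι, Rv_single, Rv_single]
  rw [h1, h2, LL_apply, RR_apply, if_pos hle, fl_comm (pa j) (pb j)]
  have e1 := ca_cb (pa j) s
  have e2 := ca_cb (pb j) s
  have e3 : ca (pa j) s * ca (pa j) s = 1 := pr_sq _ _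
  have e4 : ca (pb j) s * ca (pb j) s = 1 := pr_sq _ _
  have e5 : chi s * chi s = 1 := pr_sq _ _
  have e6 : cb (pa j) s = ca (pa j) s * (chi s * sg (s (pa j))) := by
    rw [← e1, ← mul_assoc, e3, one_mul]
  have e7 : cb (pb j) s = ca (pb j) s * (chi s * sg (s (pb j))) := by
    rw [← e2, ← mul_assoc, e4, one_mul]
  rw [e6, e7]
  linear_combination (-(ca (pa j) s * ca (pb j) s * sg (s (pa j)) * sg (s (pb j)) *
    phi h (fl (pb j) (fl (pa j) s)))) * e5

/-- Parity classes are preserved. -/
lemma par_NF (P : Fin n → Prop) [DecidablePred P] (hP : ∀ j, P (pa j) ↔ P (pb j)) (κ : ℝ)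
    (u : Fin (n / 2) → ℂ) (h : Cl n) (hh : ∀ s, pr P s * phi h s = κ * phi h s)
    (s : Fin n → Bool) : pr P s * phi (NF u * h) s = κ * phi (NF u * h) s := by
  unfold NF
  generalize List.finRange (n / 2) = L
  induction L generalizing s with
  | nil => simpa using hh s
  | cons j L ih =>
    rw [List.map_cons, List.prod_cons, mul_assoc, phi_cx_mul]
    have h1 := ih s
    have h2 := ih (fl (pb j) (fl (pa j) s))
    have h3 : pr P (fl (pb j) (fl (pa j) s)) = pr P s := by
      rw [pr_fl, pr_fl]
      by_cases hj : P (pb j)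
      · rw [if_pos hj, if_pos ((hP j).2 hj)]; ring
      · rw [if_neg hj, if_neg (fun h => hj ((hP j).1 h))]; ring
    rw [h3] at h2
    linear_combination ((u j).re) * h1 - ((u j).im * (ca (pa j) s * ca (pb j) s)) * h2

/-- Moving a product of bivectors from right to left. -/
lemma mv_NF (C : Fin (n / 2) → Prop) [DecidablePred C] (w : Fin (n / 2) → ℂ)
    (h1 : ∀ j, C j → (w j).re = 0) (h2 : ∀ j, ¬ C j → w j = 1) (h : Cl n)
    (s : Fin n → Bool) : phi (h * NF w) s
      = (∏ j, if C j then sg (s (pa j)) * sg (s (pb j)) else 1) * phi (NF w * h) s := by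
  rw [Fin.prod_univ_def]
  unfold NF
  generalize List.finRange (n / 2) = L
  induction L generalizing h with
  | nil => simp
  | cons j L ih =>
    simp only [List.map_cons, List.prod_cons]
    rw [← mul_assoc, ih, ← mul_assoc, mul_assoc (cx j (w j))]
    by_cases hj : C j
    · rw [if_pos hj]
      have : (cx j (w j) : Cl n) = (w j).im • om j := by rw [cx, h1 j hj]; simp
      rw [this, mul_smul_comm, smul_mul_assoc, phi_smul, phi_smul, Pi.smul_apply,
        Pi.smul_apply, phi_mul_om, smul_eq_mul, smul_eq_mul]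
      ring
    · rw [if_neg hj, h2 j hj, cx_one]
      simp

/-- The scalar coordinate of a normal form. -/
lemma tau_NF (y : Fin (n / 2) → ℂ) : phi (NF y : Cl n) (fun _ => false) = ∏ j, (y j).re := by
  rw [Fin.prod_univ_def]
  unfold NF
  have key : ∀ l : List (Fin (n / 2)), l.Nodup →
      (∀ s : Fin n → Bool, (∃ j, j ∉ l ∧ (s (pa j) = true ∨ s (pb j) = true)) →
        phi ((l.map fun j => cx j (y j)).prod : Cl n) s = 0) ∧
      phi ((l.map fun j => cx j (y j)).prod : Cl n) (fun _ => false)
        = (l.map fun j => (y j).re).prod := by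
    intro l hl
    induction l with
    | nil =>
      have : phi (1 : Cl n) = vac := by simp [phi]
      simp only [List.map_nil, List.prod_nil, this]
      refine ⟨?_, by simp [vac]⟩
      rintro s ⟨j, -, hj⟩
      have : s ≠ fun _ => false := by
        rintro rfl
        simp at hj
      simp [vac, this]
    | cons j l ih =>
      rw [List.nodup_cons] at hl
      obtain ⟨ih1, ih2⟩ := ih hl.2
      simp only [List.map_cons, List.prod_cons]
      constructor
      · rintro s ⟨k, hk, hs⟩
        have hkj : k ≠ j := fun h => hk (h ▸ List.mem_cons_self)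
        have hkl : k ∉ l := fun h => hk (List.mem_cons_of_mem _ h)
        rw [phi_cx_mul, ih1 s ⟨k, hkl, hs⟩, ih1 _ ⟨k, hkl, ?_⟩]
        · ring
        · rw [fl_ne (pa_ne_pb k j), fl_ne (fun h => hkj (pa_inj.1 h)),
            fl_ne (fun h => hkj (pb_inj.1 h)), fl_ne (pa_ne_pb j k).symm]
          exact hs
      · rw [phi_cx_mul, ih2, ih1 _ ⟨j, hl.1, ?_⟩]
        · ring
        · left
          rw [fl_ne (pa_ne_pb j j), fl_self]
          rfl
  exact (key _ (List.nodup_finRange _)).2

lemma idx_cases (i : Fin n) : (∃ j, i = pa j) ∨ (∃ j, i = pb j) ∨ i.1 = 2 * (n / 2) := by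
  have hi := i.2
  by_cases h : i.1 = 2 * (n / 2)
  · exact Or.inr (Or.inr h)
  · have h2 : i.1 / 2 < n / 2 := by omega
    rcases Nat.mod_two_eq_zero_or_one i.1 with h3 | h3
    · exact Or.inl ⟨⟨i.1 / 2, h2⟩, Fin.ext (by simp only [pa]; omega)⟩
    · exact Or.inr (Or.inl ⟨⟨i.1 / 2, h2⟩, Fin.ext (by simp only [pb]; omega)⟩)

lemma prod_planes {A : Type*} [CommMonoid A] (f : Fin n → A) :
    ∏ i, f i = (∏ j, f (pa j) * f (pb j)) *
      ∏ i ∈ Finset.univ.filter (fun i : Fin n => i.1 = 2 * (n / 2)), f i := by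
  classical
  have hu : (Finset.univ : Finset (Fin n)) = (Finset.univ.image pa ∪ Finset.univ.image pb) ∪
      Finset.univ.filter (fun i : Fin n => i.1 = 2 * (n / 2)) := by
    ext i
    simp only [Finset.mem_univ, Finset.mem_union, Finset.mem_image, true_and, Finset.mem_filter,
      true_iff]
    rcases idx_cases i with ⟨j, hj⟩ | ⟨j, hj⟩ | h
    · exact Or.inl (Or.inl ⟨j, hj.symm⟩)
    · exact Or.inl (Or.inr ⟨j, hj.symm⟩)
    · exact Or.inr h
  rw [hu, Finset.prod_union, Finset.prod_union, Finset.prod_image, Finset.prod_image,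
    Finset.prod_mul_distrib]
  · congr 1
    refine Finset.prod_congr ?_ fun _ _ => rfl
    rw [← hu]
  · intro j _ k _ h; exact pb_inj.1 h
  · intro j _ k _ h; exact pa_inj.1 h
  · rw [Finset.disjoint_left]
    intro i hi hi'
    obtain ⟨j, -, rfl⟩ := Finset.mem_image.1 hi
    obtain ⟨k, -, hk⟩ := Finset.mem_image.1 hi'
    exact pa_ne_pb j k hk.symm
  · rw [Finset.disjoint_left]
    intro i hi hi'
    rw [Finset.mem_filter] at hi'
    rcases Finset.mem_union.1 hi with h | h
    · obtain ⟨j, -, rfl⟩ := Finset.mem_image.1 h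
      have := j.2
      have h2 := hi'.2
      simp only [pa] at h2
      omega
    · obtain ⟨j, -, rfl⟩ := Finset.mem_image.1 h
      have := j.2
      have h2 := hi'.2
      simp only [pb] at h2
      omega

lemma sum_planes {A : Type*} [AddCommMonoid A] (f : Fin n → A) :
    ∑ i, f i = (∑ j, (f (pa j) + f (pb j))) +
      ∑ i ∈ Finset.univ.filter (fun i : Fin n => i.1 = 2 * (n / 2)), f i :=
  prod_planes (A := Multiplicative A) f

lemma card_last : (Finset.univ.filter (fun i : Fin n => i.1 = 2 * (n / 2))).card = n % 2 := by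
  rcases Nat.mod_two_eq_zero_or_one n with h | h
  · rw [h, Finset.card_eq_zero, Finset.filter_eq_empty_iff]
    intro i _ hi
    have := i.2
    omega
  · rw [h, Finset.card_eq_one]
    refine ⟨⟨n - 1, by omega⟩, ?_⟩
    ext i
    simp only [Finset.mem_filter, Finset.mem_univ, true_and, Finset.mem_singleton]
    constructor
    · intro hi; exact Fin.ext (by simp only; omega)
    · intro hi; rw [hi]; simp only; omega

lemma ι_sum (v : Fin n → ℝ) : ι (Q n) v = ∑ k, v k • (e k : Cl n) := by
  have h : v = ∑ k, v k • (Pi.single k (1 : ℝ) : Fin n → ℝ) := by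
    ext i
    rw [Finset.sum_apply, Finset.sum_eq_single i]
    · simp
    · intro k _ hk
      simp [Pi.single_eq_of_ne hk.symm]
    · simp
  conv_lhs => rw [h]
  rw [map_sum]
  simp only [map_smul]
  rfl

lemma e_e (i k : Fin n) : (e i : Cl n) * e k + e k * e i
    = algebraMap ℝ _ (if i = k then -2 else 0) := by
  by_cases h : i = k
  · subst h
    rw [if_pos rfl, e_sq]
    rw [map_neg, map_ofNat]
    norm_num
  · rw [if_neg h, e_anti h]; simp

/-- The restricted traces of an involution are read off from the support. -/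
lemma tr_class (l : List (Fin n → ℝ)) (he : Even l.length) 
    (G : (Fin n → ℝ) →ₗ[ℝ] (Fin n → ℝ))
    (hG : ∀ v, (vp l : Cl n) * ι (Q n) v = ι (Q n) (G v) * vp l)
    (hsym : ∀ i k, G (Pi.single i 1) k = G (Pi.single k 1) i)
    (C : Fin n → Prop) [DecidablePred C]
    (hC : ∀ i k, C i → ¬ C k → G (Pi.single i 1) k = 0) (s : Fin n → Bool)
    (hs : phi (vp l : Cl n) s ≠ 0) :
    ∑ i, (if C i then sg (s i) else 0) = ∑ i, (if C i then G (Pi.single i 1) i else 0) := by
  classical
  set c : Fin n → Fin n → ℝ := fun i k => if C i ∧ C k then G (Pi.single i 1) k else 0 with hc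
  have hcs : ∀ i k, c i k = c k i := by
    intro i k
    simp only [hc]
    rw [hsym i k]
    simp only [and_comm]
  have hS : ∑ i, ∑ k, c i k • ((e i : Cl n) * e k) = algebraMap ℝ _ (-∑ i, c i i) := by
    have h2 : (2 : ℝ) • ∑ i, ∑ k, c i k • ((e i : Cl n) * e k)
        = (2 : ℝ) • algebraMap ℝ (Cl n) (-∑ i, c i i) := by
      have h3 : (2 : ℝ) • ∑ i, ∑ k, c i k • ((e i : Cl n) * e k)
          = ∑ i, ∑ k, c i k • ((e i : Cl n) * e k + e k * e i) := by
        simp only [smul_add, Finset.sum_add_distrib]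
        rw [two_smul]
        congr 1
        rw [Finset.sum_comm]
        refine Finset.sum_congr rfl fun i _ => Finset.sum_congr rfl fun k _ => ?_
        rw [hcs]
      rw [h3]
      simp only [e_e, Algebra.algebraMap_eq_smul_one, smul_smul, mul_ite, mul_zero]
      simp only [ite_smul, zero_smul, Finset.sum_ite_eq, Finset.mem_univ, if_true]
      rw [← Finset.sum_smul, ← Finset.sum_mul]
      congr 1
      ring
    exact smul_right_injective _ (two_ne_zero) h2
  have hA : ∀ i, C i → (e i : Cl n) * vp l * e i = (∑ k, c i k • ((e i : Cl n) * e k)) * vp l := by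
    intro i hi
    rw [mul_assoc]
    have h1 : (vp l : Cl n) * e i = ι (Q n) (G (Pi.single i 1)) * vp l := hG _
    rw [h1, ι_sum, ← mul_assoc, Finset.mul_sum]
    congr 1
    refine Finset.sum_congr rfl fun k _ => ?_
    rw [mul_smul_comm]
    simp only [hc]
    by_cases hk : C k
    · rw [if_pos ⟨hi, hk⟩]
    · rw [if_neg (fun h => hk h.2), hC i k hi hk]
  have hA' : ∀ i, ¬ C i → ∑ k, c i k • ((e i : Cl n) * e k) = 0 := by
    intro i hi
    refine Finset.sum_eq_zero fun k _ => ?_
    simp only [hc]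
    rw [if_neg (fun h => hi h.1), zero_smul]
  have hsum : ∑ i, (if C i then (e i : Cl n) * vp l * e i else 0) = (-∑ i, c i i) • vp l := by
    rw [Algebra.smul_def, ← hS, Finset.sum_mul]
    refine Finset.sum_congr rfl fun i _ => ?_
    by_cases hi : C i
    · rw [if_pos hi, hA i hi]
    · rw [if_neg hi, hA' i hi, zero_mul]
  have hphi := congrArg (fun x => phi x s) hsum
  simp only [phi_smul, Pi.smul_apply, smul_eq_mul] at hphi
  have hl : phi (∑ i, (if C i then (e i : Cl n) * vp l * e i else 0)) s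
      = -∑ i, (if C i then sg (s i) else 0) * phi (vp l : Cl n) s := by
    have h1 : phi (∑ i, (if C i then (e i : Cl n) * vp l * e i else 0))
        = ∑ i, phi (if C i then (e i : Cl n) * vp l * e i else 0) := by
      simp only [phi, map_sum, LinearMap.sum_apply]
    rw [h1, Finset.sum_apply, ← Finset.sum_neg_distrib]
    refine Finset.sum_congr rfl fun i _ => ?_
    by_cases hi : C i
    · rw [if_pos hi, if_pos hi, mul_assoc]
      have h2 : phi ((e i : Cl n) * (vp l * e i)) = L i (R i (phi (vp l))) := by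
        unfold e
        rw [phi_ι_mul, phi_mul_ι, Lv_single, Rv_single]
      rw [h2, LR_self]
      have h3 := phi_vp_chi l s
      rw [he.neg_one_pow, one_mul] at h3
      linear_combination (-(sg (s i))) * h3
    · rw [if_neg hi, if_neg hi]
      simp [phi]
  rw [hl, ← Finset.sum_mul] at hphi
  have h4 : ∑ i, (if C i then sg (s i) else 0) = ∑ i, c i i := by
    have : (∑ i, (if C i then sg (s i) else 0) - ∑ i, c i i) * phi (vp l : Cl n) s = 0 := by
      linear_combination -hphi
    rcases mul_eq_zero.1 this with h | h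
    · linarith
    · exact absurd h hs
  rw [h4]
  refine Finset.sum_congr rfl fun i _ => ?_
  simp only [hc, and_self]

lemma sum_sg (C : Fin n → Prop) [DecidablePred C] (s : Fin n → Bool) :
    ∑ i, (if C i then sg (s i) else 0) = ((Finset.univ.filter C).card : ℝ)
      - 2 * ((Finset.univ.filter fun i => C i ∧ s i = true).card : ℝ) := by
  rw [Finset.card_filter, Finset.card_filter]
  push_cast
  rw [Finset.mul_sum, ← Finset.sum_sub_distrib]
  refine Finset.sum_congr rfl fun i _ => ?_
  by_cases h : C i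
  · rcases hs : s i with _ | _
    · simp [h, sg]
    · simp [h, sg]; norm_num
  · simp [h]

lemma pr_card (C : Fin n → Prop) [DecidablePred C] (s : Fin n → Bool) :
    pr C s = (-1) ^ (Finset.univ.filter fun i => C i ∧ s i = true).card := by
  unfold pr
  rw [← Finset.prod_const, Finset.prod_filter]
  refine Finset.prod_congr rfl fun i _ => ?_
  by_cases h : C i
  · rcases hs : s i with _ | _
    · simp [h, sg]
    · simp [h, sg]
  · simp [h]

/-- The eigenvalues of `X + X⁻¹`. -/
noncomputable def dd (z : Fin (n / 2) → ℂ) (i : Fin n) : ℝ :=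
  if h : i.1 / 2 < n / 2 then 2 * ((z ⟨i.1 / 2, h⟩).re ^ 2 - (z ⟨i.1 / 2, h⟩).im ^ 2) else 2

lemma dd_pa (z : Fin (n / 2) → ℂ) (j : Fin (n / 2)) :
    dd z (pa j) = 2 * ((z j).re ^ 2 - (z j).im ^ 2) := by
  have h : (pa j).1 / 2 = j.1 := by simp [pa]
  have h2 : (pa j).1 / 2 < n / 2 := by rw [h]; exact j.2
  unfold dd
  rw [dif_pos h2]
  have : (⟨(pa j).1 / 2, h2⟩ : Fin (n / 2)) = j := Fin.ext h
  rw [this]

lemma dd_pb (z : Fin (n / 2) → ℂ) (j : Fin (n / 2)) :
    dd z (pb j) = 2 * ((z j).re ^ 2 - (z j).im ^ 2) := by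
  have h : (pb j).1 / 2 = j.1 := by simp only [pb]; omega
  have h2 : (pb j).1 / 2 < n / 2 := by rw [h]; exact j.2
  unfold dd
  rw [dif_pos h2]
  have : (⟨(pb j).1 / 2, h2⟩ : Fin (n / 2)) = j := Fin.ext h
  rw [this]

lemma dd_last (z : Fin (n / 2) → ℂ) (i : Fin n) (hi : i.1 = 2 * (n / 2)) : dd z i = 2 := by
  unfold dd
  rw [dif_neg]
  omega

lemma last_ne {i : Fin n} (hi : i.1 = 2 * (n / 2)) (j : Fin (n / 2)) : i ≠ pa j ∧ i ≠ pb j := by
  have := j.2
  constructor <;> intro h <;> · have h2 := congrArg Fin.val h; simp only [pa, pb] at h2; omega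

/-- Necessity of the criterion. -/
lemma necessity (θ : Fin (n / 2) → ℝ) (l : List (Fin n → ℝ)) (he : Even l.length)
    (hl : ∀ v ∈ l, ∑ i, v i ^ 2 = 1) (hg : (vp l : Cl n) * vp l = 1)
    (hx : (vp l : Cl n) * NF (zz θ) * vp l = NF (fun j => (starRingEnd ℂ) (zz θ j))) :
    Crit n (pN θ) (qN θ) := by
  classical
  set z := zz θ with hzdef
  set g : Cl n := vp l with hgdef
  have hz : ∀ j, (z j).re ^ 2 + (z j).im ^ 2 = 1 := fun j => by
    change Real.cos (θ j) ^ 2 + Real.sin (θ j) ^ 2 = 1
    exact Real.cos_sq_add_sin_sq _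
  have hz' : ∀ j, ((starRingEnd ℂ) (z j)).re ^ 2 + ((starRingEnd ℂ) (z j)).im ^ 2 = 1 :=
    fun j => by simpa using hz j
  set x : Cl n := NF z with hxdef
  set x' : Cl n := NF (fun j => (starRingEnd ℂ) (z j)) with hx'def
  have hxx' : x * x' = 1 := NF_inv hz
  have hx'x : x' * x = 1 := NF_inv' hz
  have hgx : g * x = x' * g := by
    calc g * x = g * x * (g * g) := by rw [hg, mul_one]
      _ = (g * x * g) * g := by simp only [mul_assoc]
      _ = x' * g := by rw [hx]
  have hxg : x * g = g * x' := by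
    calc x * g = (g * g) * (x * g) := by rw [hg, one_mul]
      _ = g * (g * x * g) := by simp only [mul_assoc]
      _ = g * x' := by rw [hx]
  -- vector representations
  obtain ⟨G, hG, hGiso⟩ := exists_G l hl
  obtain ⟨lx, -, hlx, hlx3⟩ := NF_list z hz
  obtain ⟨X, hX, hXiso⟩ := exists_G lx hlx
  obtain ⟨lx', -, hlx', hlx3'⟩ := NF_list (fun j => (starRingEnd ℂ) (z j)) hz'
  obtain ⟨X', hX', hXiso'⟩ := exists_G lx' hlx'
  rw [hlx3] at hX
  rw [hlx3'] at hX'
  rw [← hgdef] at hG
  have hGG : ∀ v, G (G v) = v := by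
    intro v
    apply cancel_ι hg
    rw [← hG, ← mul_one (g * _), ← hg, ← mul_assoc, mul_assoc g, ← hG, ← mul_assoc, hg, one_mul]
  have hGadj : ∀ v w, G v ⬝ᵥ w = v ⬝ᵥ G w := by
    intro v w
    rw [← hGiso v (G w), hGG]
  have hXX' : ∀ v, X (X' v) = v := by
    intro v
    have h1 : ι (Q n) (X (X' v)) * (x * x') = ι (Q n) v * (x * x') := by
      rw [← mul_assoc, ← hX, mul_assoc x, ← hX', ← mul_assoc, hxx', one_mul, mul_one]
    rw [hxx', mul_one, mul_one] at h1
    exact ι_inj h1
  have hXadj : ∀ v w, X v ⬝ᵥ w = v ⬝ᵥ X' w := by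
    intro v w
    conv_lhs => rw [← hXX' w]
    exact hXiso _ _
  have hX'adj : ∀ v w, X' v ⬝ᵥ w = v ⬝ᵥ X w := by
    intro v w
    rw [dotProduct_comm, ← hXadj, dotProduct_comm]
  have hGX : ∀ v, G (X v) = X' (G v) := by
    intro v
    have h1 : ι (Q n) (G (X v)) * (g * x) = ι (Q n) (X' (G v)) * (g * x) := by
      calc ι (Q n) (G (X v)) * (g * x) = g * x * ι (Q n) v := by
            rw [← mul_assoc, ← hG, mul_assoc g, ← hX, ← mul_assoc]
        _ = x' * g * ι (Q n) v := by rw [hgx]
        _ = ι (Q n) (X' (G v)) * (x' * g) := by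
            rw [mul_assoc, hG, ← mul_assoc, hX', mul_assoc]
        _ = _ := by rw [hgx]
    have h2 : (g * x) * (x' * g) = 1 := by
      rw [mul_assoc, ← mul_assoc x, hxx', one_mul, hg]
    exact cancel_ι h2 h1
  have hXG : ∀ v, X (G v) = G (X' v) := by
    intro v
    have := hGX (G (X (G v)))
    have h3 : X (G v) = G (X' v) := by
      have h4 := congrArg G (hGX (X' v))
      rw [hGG, hXX'] at h4
      -- h4 : X (X' v) = G (X' (G (X' v)))
      have h5 : G (X (G v)) = X' v := by rw [hGX, hGG]
      have h6 := congrArg G h5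
      rwa [hGG] at h6
    exact h3
  have hsym : ∀ i k, G (Pi.single i 1) k = G (Pi.single k 1) i := by
    intro i k
    have := hGadj (Pi.single i 1) (Pi.single k 1)
    simpa using this
  -- the sum
  have hT : ∀ i, X (Pi.single i 1) + X' (Pi.single i 1) = dd z i • Pi.single i (1 : ℝ) := by
    intro i
    rcases idx_cases i with ⟨j, rfl⟩ | ⟨j, rfl⟩ | hi
    · rw [(X_apply hz hX j).1, (X_apply hz' hX' j).1, dd_pa]
      simp only [Complex.conj_re, Complex.conj_im]
      module
    · rw [(X_apply hz hX j).2, (X_apply hz' hX' j).2, dd_pb]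
      simp only [Complex.conj_re, Complex.conj_im]
      module
    · rw [X_last hz hX i (last_ne hi), X_last hz' hX' i (last_ne hi), dd_last z i hi, two_smul]
  have hTG : ∀ i k, dd z k * G (Pi.single i 1) k = dd z i * G (Pi.single i 1) k := by
    intro i k
    have h1 : X (G (Pi.single i 1)) + X' (G (Pi.single i 1)) = dd z i • G (Pi.single i 1) := by
      rw [hXG, ← hGX, ← map_add, add_comm, hT, map_smul]
    have h2 := congrArg (fun v => v ⬝ᵥ (Pi.single k (1 : ℝ) : Fin n → ℝ)) h1
    simp only [add_dotProduct] at h2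
    rw [hXadj, hX'adj, ← dotProduct_add, add_comm (X' _), hT, dotProduct_smul, smul_dotProduct]
      at h2
    simpa using h2
  have hU : ∀ j, (2 * (z j).re * (z j).im) * (G (Pi.single (pa j) 1) (pa j)
      + G (Pi.single (pb j) 1) (pb j)) = 0 := by
    intro j
    have e1 : X (Pi.single (pa j) 1) - X' (Pi.single (pa j) 1)
        = (2 * (2 * (z j).re * (z j).im)) • Pi.single (pb j) (1 : ℝ) := by
      rw [(X_apply hz hX j).1, (X_apply hz' hX' j).1]
      simp only [Complex.conj_re, Complex.conj_im]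
      module
    have e2 : X' (Pi.single (pb j) 1) - X (Pi.single (pb j) 1)
        = (2 * (2 * (z j).re * (z j).im)) • Pi.single (pa j) (1 : ℝ) := by
      rw [(X_apply hz hX j).2, (X_apply hz' hX' j).2]
      simp only [Complex.conj_re, Complex.conj_im]
      module
    have h1 : X (G (Pi.single (pa j) 1)) - X' (G (Pi.single (pa j) 1))
        = -((2 * (2 * (z j).re * (z j).im)) • G (Pi.single (pb j) (1 : ℝ))) := by
      rw [hXG, ← hGX, ← map_smul, ← e1, map_sub]
      abel
    have h2 := congrArg (fun v => v ⬝ᵥ (Pi.single (pb j) (1 : ℝ) : Fin n → ℝ)) h1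
    simp only [sub_dotProduct, neg_dotProduct] at h2
    rw [hXadj, hX'adj, ← dotProduct_sub, e2, dotProduct_smul, smul_dotProduct] at h2
    simp only [dotProduct_single_one, smul_eq_mul] at h2
    linear_combination (1 / 2) * h2
  -- the support
  obtain ⟨s, hs⟩ : ∃ s, phi g s ≠ 0 := by
    by_contra hcon
    push Not at hcon
    have h1 : phi g = 0 := funext hcon
    have h2 : phi (g * g) = 0 := by rw [phi_mul, h1, map_zero]
    rw [hg] at h2
    have h3 : phi (1 : Cl n) = vac := by simp [phi]
    rw [h3] at h2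
    have := congrFun h2 (fun _ => false)
    simp [vac] at this
  have hchi : chi s = 1 := by
    have h3 := phi_vp_chi l s
    rw [he.neg_one_pow] at h3
    exact mul_right_cancel₀ hs h3
  have hrv : rv s = 1 := by
    have h1 := vp_rev l hl
    rw [he.neg_one_pow] at h1
    have h2 : (vp l.reverse : Cl n) = g := by
      calc (vp l.reverse : Cl n) = (g * g) * vp l.reverse := by rw [hg, one_mul]
        _ = g * (g * vp l.reverse) := by rw [mul_assoc]
        _ = g := by rw [h1, mul_one]
    have h3 := phi_vp_rev l s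
    rw [h2, ← hgdef] at h3
    have h4 : rv s * phi g s = 1 * phi g s := by rw [← h3, one_mul]
    exact mul_right_cancel₀ hs h4
  have hcnt : ∃ t, cnt s = 4 * t := by
    have h1 : Even (cnt s) := by
      rw [chi_eq] at hchi
      by_contra hodd
      rw [Nat.not_even_iff_odd] at hodd
      rw [hodd.neg_one_pow] at hchi
      norm_num at hchi
    have h2 : Even ((cnt s).choose 2) := by
      unfold rv at hrv
      by_contra hodd
      rw [Nat.not_even_iff_odd] at hodd
      rw [hodd.neg_one_pow] at hrv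
      norm_num at hrv
    obtain ⟨t, ht⟩ := h1
    have h3 : (cnt s).choose 2 = t * (2 * t - 1) := by
      rw [Nat.choose_two_right, ht, show t + t = 2 * t by ring, mul_assoc,
        Nat.mul_div_cancel_left _ (by norm_num)]
    rw [h3, Nat.even_mul] at h2
    rcases h2 with h2 | h2
    · obtain ⟨u, hu⟩ := h2
      exact ⟨u, by omega⟩
    · rcases Nat.eq_zero_or_pos t with h0 | h0
      · exact ⟨0, by omega⟩
      · exfalso
        obtain ⟨u, hu⟩ := h2
        omega
  obtain ⟨t, ht⟩ := hcnt
  -- classes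
  set V0 : Fin n → Prop := fun i => dd z i = 2 with hV0
  set V1 : Fin n → Prop := fun i => dd z i = -2 with hV1
  set Vg : Fin n → Prop := fun i => dd z i ≠ 2 ∧ dd z i ≠ -2 with hVg
  have hG0 : ∀ i k, dd z i ≠ dd z k → G (Pi.single i 1) k = 0 := by
    intro i k hik
    have h1 : (dd z k - dd z i) * G (Pi.single i 1) k = 0 := by
      linear_combination hTG i k
    rcases mul_eq_zero.1 h1 with h | h
    · exact absurd (sub_eq_zero.1 h).symm hik
    · exact h
  have hC1 : ∀ i k, V1 i → ¬ V1 k → G (Pi.single i 1) k = 0 := by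
    intro i k hi hk
    apply hG0
    intro h
    exact hk (by simp only [hV1] at hi ⊢; rw [← h, hi])
  have hCg : ∀ i k, Vg i → ¬ Vg k → G (Pi.single i 1) k = 0 := by
    intro i k hi hk
    apply hG0
    intro h
    exact hk (by simp only [hVg] at hi ⊢; rw [← h]; exact hi)
  have hre1 : ∀ j, dd z (pa j) = -2 ↔ Real.cos (θ j) = 0 := by
    intro j
    rw [dd_pa]
    have := hz j
    have hc : (z j).re = Real.cos (θ j) := rfl
    rw [← hc]
    constructor
    · intro h
      have : (z j).re ^ 2 = 0 := by linarith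
      simpa using this
    · intro h; rw [h] at this ⊢; linarith
  have him1 : ∀ j, dd z (pa j) = 2 ↔ Real.sin (θ j) = 0 := by
    intro j
    rw [dd_pa]
    have := hz j
    have hc : (z j).im = Real.sin (θ j) := rfl
    rw [← hc]
    constructor
    · intro h
      have : (z j).im ^ 2 = 0 := by linarith
      simpa using this
    · intro h; rw [h] at this ⊢; linarith
  have hdab : ∀ j, dd z (pb j) = dd z (pa j) := fun j => by rw [dd_pa, dd_pb]
  -- the class `Vg`
  have htrg : ∑ i, (if Vg i then G (Pi.single i 1) i else 0) = 0 := by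
    rw [sum_planes]
    have h1 : ∀ j, ((if Vg (pa j) then G (Pi.single (pa j) 1) (pa j) else 0)
        + (if Vg (pb j) then G (Pi.single (pb j) 1) (pb j) else 0)) = 0 := by
      intro j
      by_cases hj : Vg (pa j)
      · have hj' : Vg (pb j) := by simp only [hVg, hdab]; exact hj
        rw [if_pos hj, if_pos hj']
        have h2 := hU j
        have hc : (z j).re ≠ 0 := fun h => hj.2 ((hre1 j).2 h)
        have hs' : (z j).im ≠ 0 := fun h => hj.1 ((him1 j).2 h)
        rcases mul_eq_zero.1 h2 with h | h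
        · exfalso
          have : 2 * (z j).re * (z j).im ≠ 0 := by positivity
          exact this h
        · exact h
      · have hj' : ¬ Vg (pb j) := by
          intro h
          apply hj
          simp only [hVg, hdab] at h ⊢
          exact h
        rw [if_neg hj, if_neg hj', add_zero]
    simp only [h1, Finset.sum_const_zero, zero_add]
    refine Finset.sum_eq_zero fun i hi => ?_
    rw [if_neg]
    intro h
    exact h.1 (dd_last z i (Finset.mem_filter.1 hi).2)
  have hg1 := tr_class l he G hG hsym Vg hCg s hs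
  rw [htrg, sum_sg] at hg1
  -- cardinalities
  have hA0 : (Finset.univ.filter V0).card = 2 * pN θ + n % 2 := by
    rw [Finset.card_filter, sum_planes, pN_eq, Finset.card_filter, Finset.mul_sum]
    congr 1
    · refine Finset.sum_congr rfl fun j _ => ?_
      by_cases hj : Real.sin (θ j) = 0
      · have h1 : V0 (pa j) := (him1 j).2 hj
        have h2 : V0 (pb j) := by simp only [hV0, hdab]; exact h1
        rw [if_pos h1, if_pos h2, if_pos hj]
        norm_num
      · have h1 : ¬ V0 (pa j) := fun h => hj ((him1 j).1 h)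
        have h2 : ¬ V0 (pb j) := by simp only [hV0, hdab]; exact h1
        rw [if_neg h1, if_neg h2, if_neg hj]
        norm_num
    · rw [← card_last, Finset.card_eq_sum_ones]
      refine Finset.sum_congr rfl fun i hi => ?_
      rw [if_pos (dd_last z i (Finset.mem_filter.1 hi).2)]
  have hA1 : (Finset.univ.filter V1).card = 2 * qN θ := by
    rw [Finset.card_filter, sum_planes, qN_eq, Finset.card_filter, Finset.mul_sum]
    rw [show (∑ i ∈ Finset.univ.filter (fun i : Fin n => i.1 = 2 * (n / 2)),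
      (if V1 i then 1 else 0)) = 0 from Finset.sum_eq_zero fun i hi => by
        rw [if_neg]
        intro h
        have h1 : dd z i = -2 := h
        rw [dd_last z i (Finset.mem_filter.1 hi).2] at h1
        norm_num at h1, add_zero]
    refine Finset.sum_congr rfl fun j _ => ?_
    by_cases hj : Real.cos (θ j) = 0
    · have h1 : V1 (pa j) := (hre1 j).2 hj
      have h2 : V1 (pb j) := by simp only [hV1, hdab]; exact h1
      rw [if_pos h1, if_pos h2, if_pos hj]
      norm_num
    · have h1 : ¬ V1 (pa j) := fun h => hj ((hre1 j).1 h)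
      have h2 : ¬ V1 (pb j) := by simp only [hV1, hdab]; exact h1
      rw [if_neg h1, if_neg h2, if_neg hj]
      norm_num
  have hclass : ∀ i, ((if V0 i then 1 else 0) + (if V1 i then 1 else 0)
      + (if Vg i then 1 else 0) : ℕ) = 1 := by
    intro i
    by_cases h0 : V0 i
    · have h1 : ¬ V1 i := by
        intro h
        have e1 : dd z i = 2 := h0
        have e2 : dd z i = -2 := h
        rw [e1] at e2; norm_num at e2
      have h2 : ¬ Vg i := fun h => h.1 h0
      rw [if_pos h0, if_neg h1, if_neg h2]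
    · by_cases h1 : V1 i
      · have h2 : ¬ Vg i := fun h => h.2 h1
        rw [if_neg h0, if_pos h1, if_neg h2]
      · have h2 : Vg i := ⟨h0, h1⟩
        rw [if_neg h0, if_neg h1, if_pos h2]
  have hAn : (Finset.univ.filter V0).card + (Finset.univ.filter V1).card
      + (Finset.univ.filter Vg).card = n := by
    rw [Finset.card_filter, Finset.card_filter, Finset.card_filter, ← Finset.sum_add_distrib,
      ← Finset.sum_add_distrib]
    calc _ = ∑ i : Fin n, 1 := Finset.sum_congr rfl (fun i _ => by convert hclass i)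
      _ = n := by simp
  have hcs : cnt s = (Finset.univ.filter fun i => V0 i ∧ s i = true).card
      + (Finset.univ.filter fun i => V1 i ∧ s i = true).card
      + (Finset.univ.filter fun i => Vg i ∧ s i = true).card := by
    unfold cnt
    rw [Finset.card_filter, Finset.card_filter, Finset.card_filter, Finset.card_filter,
      ← Finset.sum_add_distrib, ← Finset.sum_add_distrib]
    refine Finset.sum_congr rfl fun i _ => ?_
    have h1 := hclass i
    by_cases hsi : s i = true
    · simp only [hsi, and_true, if_true]; exact h1.symm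
    · simp [hsi]
  have hr0 : (Finset.univ.filter fun i => V0 i ∧ s i = true).card
      ≤ (Finset.univ.filter V0).card := by
    refine Finset.card_le_card fun i hi => ?_
    rw [Finset.mem_filter] at hi ⊢
    exact ⟨hi.1, hi.2.1⟩
  have hr1 : (Finset.univ.filter fun i => V1 i ∧ s i = true).card
      ≤ (Finset.univ.filter V1).card := by
    refine Finset.card_le_card fun i hi => ?_
    rw [Finset.mem_filter] at hi ⊢
    exact ⟨hi.1, hi.2.1⟩
  have hrg : (Finset.univ.filter Vg).card
      = 2 * (Finset.univ.filter fun i => Vg i ∧ s i = true).card := by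
    have : ((Finset.univ.filter Vg).card : ℝ)
      = 2 * ((Finset.univ.filter fun i => Vg i ∧ s i = true).card : ℝ) := by linarith
    exact_mod_cast this
  -- the parity of the class `V1`
  set κ : ℝ := pr V1 s with hκ
  have hκall : ∀ s', pr V1 s' * phi g s' = κ * phi g s' := by
    intro s'
    by_cases hs' : phi g s' = 0
    · rw [hs', mul_zero, mul_zero]
    · congr 1
      have h1 := tr_class l he G hG hsym V1 hC1 s hs
      have h2 := tr_class l he G hG hsym V1 hC1 s' hs'
      rw [← h1, sum_sg, sum_sg] at h2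
      have h3 : ((Finset.univ.filter fun i => V1 i ∧ s' i = true).card : ℝ)
        = ((Finset.univ.filter fun i => V1 i ∧ s i = true).card : ℝ) := by linarith
      have h4 : (Finset.univ.filter fun i => V1 i ∧ s' i = true).card
        = (Finset.univ.filter fun i => V1 i ∧ s i = true).card := by exact_mod_cast h3
      rw [hκ, pr_card, pr_card, h4]
  set C : Fin (n / 2) → Prop := fun j => Real.cos (θ j) = 0 with hCdef
  set w : Fin (n / 2) → ℂ := fun j => if C j then z j else 1 with hw
  set y : Fin (n / 2) → ℂ := fun j => if C j then 1 else z j with hy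
  have hzwy : (fun j => w j * y j) = z := by
    funext j
    simp only [hw, hy]
    by_cases hj : C j <;> simp [hj]
  have hwn : ∀ j, (w j).re ^ 2 + (w j).im ^ 2 = 1 := by
    intro j
    simp only [hw]
    by_cases hj : C j
    · rw [if_pos hj]; exact hz j
    · rw [if_neg hj]; simp
  have hyn : ∀ j, (y j).re ^ 2 + (y j).im ^ 2 = 1 := by
    intro j
    simp only [hy]
    by_cases hj : C j
    · rw [if_pos hj]; simp
    · rw [if_neg hj]; exact hz j
  have hmv : phi (g * NF w) = κ • phi (NF w * g) := by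
    funext s'
    rw [mv_NF C w ?_ ?_ g s']
    · have h1 : (∏ j, if C j then sg (s' (pa j)) * sg (s' (pb j)) else 1) = pr V1 s' := by
        unfold pr
        rw [prod_planes (fun i => if V1 i then sg (s' i) else 1)]
        rw [show (∏ i ∈ Finset.univ.filter (fun i : Fin n => i.1 = 2 * (n / 2)),
          (if V1 i then sg (s' i) else 1)) = 1 from Finset.prod_eq_one fun i hi => by
            rw [if_neg]
            intro h
            have h1 : dd z i = -2 := h
            rw [dd_last z i (Finset.mem_filter.1 hi).2] at h1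
            norm_num at h1, mul_one]
        refine Finset.prod_congr rfl fun j _ => ?_
        by_cases hj : C j
        · have h1 : V1 (pa j) := (hre1 j).2 hj
          have h2 : V1 (pb j) := by simp only [hV1, hdab]; exact h1
          rw [if_pos hj, if_pos h1, if_pos h2]
        · have h1 : ¬ V1 (pa j) := fun h => hj ((hre1 j).1 h)
          have h2 : ¬ V1 (pb j) := by simp only [hV1, hdab]; exact h1
          rw [if_neg hj, if_neg h1, if_neg h2, one_mul]
      rw [h1, par_NF V1 (fun j => by simp only [hV1, hdab]) κ w g hκall s', Pi.smul_apply,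
        smul_eq_mul]
    · intro j hj
      simp only [hw]
      rw [if_pos hj]
      exact hj
    · intro j hj
      simp only [hw]
      rw [if_neg hj]
  have hconj : (fun j => (starRingEnd ℂ) (z j))
      = fun j => (starRingEnd ℂ) (w j) * (starRingEnd ℂ) (y j) := by
    rw [← hzwy]
    funext j
    rw [map_mul]
  have hwbar : (NF (fun j => (starRingEnd ℂ) (w j)) : Cl n)
      = algebraMap ℝ _ ((-1) ^ (qN θ)) * NF w := by
    have h1 : (fun j => (starRingEnd ℂ) (w j))
        = fun j => (((if C j then -1 else 1 : ℝ) : ℝ) : ℂ) * w j := by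
      funext j
      simp only [hw]
      by_cases hj : C j
      · rw [if_pos hj, if_pos hj]
        have hr : (z j).re = 0 := hj
        apply Complex.ext
        · simp [hr]
        · simp
      · rw [if_neg hj, if_neg hj]; simp
    rw [h1, NF_mul (fun j => (((if C j then -1 else 1 : ℝ) : ℝ) : ℂ)) w, NF_real]
    congr 2
    rw [Finset.prod_ite, Finset.prod_const, Finset.prod_const_one, mul_one, qN_eq]
  have hmain : phi (x' : Cl n) = κ • phi (NF w * (g * NF y * g)) := by
    have h1 := phi_right (NF y * g) κ (g * NF w) (NF w * g) hmv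
    have h2 : g * NF w * (NF y * g) = x' := by
      rw [show g * NF w * (NF y * g) = g * (NF w * NF y) * g by simp only [mul_assoc], ← NF_mul,
        hzwy]
      exact hx
    rw [h2] at h1
    rw [h1]
    simp only [mul_assoc]
  have hx'2 : (x' : Cl n) = (-1 : ℝ) ^ (qN θ) • (NF w * NF (fun j => (starRingEnd ℂ) (y j))) := by
    rw [hx'def, hconj, NF_mul (fun j => (starRingEnd ℂ) (w j)) (fun j => (starRingEnd ℂ) (y j)),
      hwbar, Algebra.smul_def, mul_assoc]
  rw [hx'2, phi_smul, phi_mul, phi_mul (NF w) (g * NF y * g), ← map_smul, ← map_smul] at hmain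
  have hmain2 := congrArg (rho (NF (fun j => (starRingEnd ℂ) (w j)) : Cl n)) hmain
  have hinv : ∀ f : M n, rho (NF (fun j => (starRingEnd ℂ) (w j)) : Cl n) (rho (NF w) f) = f := by
    intro f
    rw [← Module.End.mul_apply, ← map_mul, NF_inv' hwn, map_one, Module.End.one_apply]
  rw [hinv, hinv] at hmain2
  have hmain3 := congrFun hmain2 (fun _ => false)
  simp only [Pi.smul_apply, smul_eq_mul] at hmain3
  have htau1 : phi (g * NF y * g) (fun _ => false) = ∏ j, (y j).re := by
    rw [mul_assoc, hgdef, tau_vp, ← hgdef, mul_assoc, hg, mul_one, tau_NF]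
  have htau2 : phi (NF (fun j => (starRingEnd ℂ) (y j)) : Cl n) (fun _ => false)
      = ∏ j, (y j).re := by
    rw [tau_NF]
    simp
  rw [htau1, htau2] at hmain3
  have hne : ∏ j, (y j).re ≠ 0 := by
    rw [Finset.prod_ne_zero_iff]
    intro j _
    simp only [hy]
    by_cases hj : C j
    · rw [if_pos hj]; simp
    · rw [if_neg hj]; exact hj
  have hpar : (-1 : ℝ) ^ (qN θ) = κ := mul_right_cancel₀ hne hmain3
  rw [hκ, pr_card] at hpar
  have hpar2 : (qN θ) % 2 = (Finset.univ.filter fun i => V1 i ∧ s i = true).card % 2 := by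
    rcases Nat.even_or_odd (qN θ) with h1 | h1 <;>
      rcases Nat.even_or_odd (Finset.univ.filter fun i => V1 i ∧ s i = true).card with h2 | h2
    · rw [Nat.even_iff.1 h1, Nat.even_iff.1 h2]
    · rw [h1.neg_one_pow, h2.neg_one_pow] at hpar; norm_num at hpar
    · rw [h1.neg_one_pow, h2.neg_one_pow] at hpar; norm_num at hpar
    · rw [Nat.odd_iff.1 h1, Nat.odd_iff.1 h2]
  unfold Crit
  generalize (Finset.univ.filter fun i => V0 i ∧ s i = true).card = r0 at *
  generalize (Finset.univ.filter fun i => V1 i ∧ s i = true).card = r1 at *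
  generalize (Finset.univ.filter fun i => Vg i ∧ s i = true).card = rg at *
  generalize (Finset.univ.filter V0).card = a0 at *
  generalize (Finset.univ.filter V1).card = a1 at *
  generalize (Finset.univ.filter Vg).card = ag at *
  generalize pN θ = p at *
  generalize qN θ = q at *
  omega

/-- An element of a group is strongly reversible if it is conjugated to its inverse by an element
whose square is `1`. -/
def StronglyReversible {G : Type*} [Group G] (x : G) : Prop :=
  ∃ g : G, g ^ 2 = 1 ∧ g * x * g⁻¹ = x⁻¹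

/-- The normal form: the product over `j` of `cos θ_j + sin θ_j e_{2j} e_{2j+1}` (indices from
`0`). -/
noncomputable def normalForm (θ : Fin (n / 2) → ℝ) : Cl n :=
  ((List.finRange (n / 2)).map fun j => algebraMap ℝ (Cl n) (Real.cos (θ j))
    + Real.sin (θ j) • (e (pa j) * e (pb j))).prod

lemma sr_conj {G : Type*} [Group G] {x y : G} (h : IsConj x y) (hx : StronglyReversible x) :
    StronglyReversible y := by
  obtain ⟨c, rfl⟩ := isConj_iff.1 h
  obtain ⟨g, hg, hgx⟩ := hx
  refine ⟨c * g * c⁻¹, ?_, ?_⟩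
  · rw [conj_pow, hg]; group
  · rw [show c * g * c⁻¹ * (c * x * c⁻¹) * (c * g * c⁻¹)⁻¹ = c * (g * x * g⁻¹) * c⁻¹ by group, hgx]
    group

lemma sr_iff {x : Spin n} {θ : Fin (n / 2) → ℝ} (hx : ((x : (Cl n)ˣ) : Cl n) = NF (zz θ)) :
    StronglyReversible x ↔ Crit n (pN θ) (qN θ) := by
  have hz : ∀ j, (zz θ j).re ^ 2 + (zz θ j).im ^ 2 = 1 := fun j => by
    change Real.cos (θ j) ^ 2 + Real.sin (θ j) ^ 2 = 1
    exact Real.cos_sq_add_sin_sq _
  have hxinv : (((x⁻¹ : Spin n) : (Cl n)ˣ) : Cl n) = NF (fun j => (starRingEnd ℂ) (zz θ j)) := by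
    rw [Subgroup.coe_inv]
    apply Units.inv_eq_of_mul_eq_one_right
    rw [hx]
    exact NF_inv hz
  constructor
  · rintro ⟨g, hg, hgx⟩
    obtain ⟨l, hl, hu, hgl⟩ := g.2
    have h1 : (vp l : Cl n) * vp l = 1 := by
      have := congrArg (fun y : Spin n => ((y : (Cl n)ˣ) : Cl n)) hg
      simp only [sq, Subgroup.coe_mul, Units.val_mul, Subgroup.coe_one, Units.val_one] at this
      rw [hgl] at this
      exact this
    have hginv : g⁻¹ = g := by
      rw [inv_eq_iff_mul_eq_one, ← sq, hg]
    refine necessity θ l hl hu h1 ?_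
    rw [hginv] at hgx
    have := congrArg (fun y : Spin n => ((y : (Cl n)ˣ) : Cl n)) hgx
    simp only [Subgroup.coe_mul, Units.val_mul] at this
    rw [hxinv, hgl, hx] at this
    exact this
  · intro h
    obtain ⟨l, hl, hu, hg, hgx⟩ := suff θ h
    let g : Spin n := ⟨⟨vp l, vp l, hg, hg⟩, ⟨l, hl, hu, rfl⟩⟩
    have hgc : ((g : (Cl n)ˣ) : Cl n) = vp l := rfl
    have hg2 : g ^ 2 = 1 := by
      apply Subtype.ext
      apply Units.ext
      rw [sq, Subgroup.coe_mul, Units.val_mul, hgc, hg]
      rfl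
    have hginv : g⁻¹ = g := by
      rw [inv_eq_iff_mul_eq_one, ← sq, hg2]
    refine ⟨g, hg2, ?_⟩
    rw [hginv]
    apply Subtype.ext
    apply Units.ext
    rw [hxinv, Subgroup.coe_mul, Subgroup.coe_mul, Units.val_mul, Units.val_mul, hgc, hx, hgx,
      mul_assoc, hg, mul_one]

/-- **Classification of the strongly reversible elements of `Spin(n)`.** -/
theorem result (n : ℕ) (θ : Fin (n / 2) → ℝ) :
    ∃ x : Spin n, ((x : (Cl n)ˣ) : Cl n) = normalForm θ ∧
      ∀ y : Spin n, IsConj x y →
        (StronglyReversible y ↔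
          (n % 8 = 0 ∨ n % 8 = 1 ∨ n % 8 = 7 ∨
            ((n % 8 = 3 ∨ n % 8 = 5) ∧
              (1 ≤ {j : Fin (n / 2) | Real.sin (θ j) = 0}.ncard ∨
                2 ≤ {j : Fin (n / 2) | Real.cos (θ j) = 0}.ncard)) ∨
            (n % 8 = 4 ∧
              (2 ≤ {j : Fin (n / 2) | Real.sin (θ j) = 0}.ncard ∨
                2 ≤ {j : Fin (n / 2) | Real.cos (θ j) = 0}.ncard)) ∨
            (n % 4 = 2 ∧ 1 ≤ {j : Fin (n / 2) | Real.sin (θ j) = 0}.ncard))) := by
  have hz : ∀ j, (zz θ j).re ^ 2 + (zz θ j).im ^ 2 = 1 := fun j => by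
    change Real.cos (θ j) ^ 2 + Real.sin (θ j) ^ 2 = 1
    exact Real.cos_sq_add_sin_sq _
  obtain ⟨l, hl, hu, hlx⟩ := NF_list (n := n) (zz θ) hz
  let x : Spin n := ⟨⟨NF (zz θ), NF (fun j => (starRingEnd ℂ) (zz θ j)), NF_inv hz, NF_inv' hz⟩,
    ⟨l, hl, hu, hlx.symm⟩⟩
  refine ⟨x, rfl, fun y hy => ?_⟩
  have h1 : StronglyReversible y ↔ StronglyReversible x := ⟨sr_conj hy.symm, sr_conj hy⟩
  rw [h1]
  exact sr_iff (x := x) (θ := θ) rfl

end Pool.Agent.Results.MP_aa0c4d_al.SpinStronglyReversible
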